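import Pool.Agent.Helper72.LPth.Meet

/-!
Families of longest paths in which equal vertices have equal positions.
-/

namespace Pool.Agent.Helper72.LPth

open Pool.Agent.Helper67.LPath

variable {V : Type} {G : SimpleGraph V} {ι : Type}

/-- a family of paths in which a common vertex has the same position in both paths -/
structure Fam (G : SimpleGraph V) (N : ℕ) (P : ι → ℕ → V) : Prop where
  path : ∀ i, PathF G N (P i)
  lev : ∀ i j a b, a < N → b < N → P i a = P j b → a = b

/-- a sequence composed of edges of the family at the right positions -/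
structure Full (N : ℕ) (P : ι → ℕ → V) (T : ℕ → V) : Prop where
  vert : ∀ t, t < N → ∃ i, P i t = T t
  edge : ∀ t, t + 1 < N → ∃ i, P i t = T t ∧ P i (t + 1) = T (t + 1)

lemma Full.lev {N : ℕ} {P : ι → ℕ → V} (hP : Fam G N P) {T T' : ℕ → V} (hT : Full N P T)
    (hT' : Full N P T') {a b : ℕ} (ha : a < N) (hb : b < N) (h : T a = T' b) : a = b := by
  obtain ⟨i, hi⟩ := hT.vert a ha
  obtain ⟨j, hj⟩ := hT'.vert b hb
  exact hP.lev i j a b ha hb (by rw [hi, hj, h])

lemma Full.pathF {N : ℕ} {P : ι → ℕ → V} (hP : Fam G N P) {T : ℕ → V} (hT : Full N P T) :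
    PathF G N T := by
  refine ⟨fun t ht => ?_, fun s t hs ht h => Full.lev hP hT hT hs ht h⟩
  obtain ⟨i, h1, h2⟩ := hT.edge t ht
  rw [← h1, ← h2]
  exact (hP.path i).adj t ht

lemma full_self {N : ℕ} (P : ι → ℕ → V) (i : ι) : Full N P (P i) :=
  ⟨fun _ _ => ⟨i, rfl⟩, fun _ _ => ⟨i, rfl, rfl⟩⟩

open Classical in
/-- switching between two full sequences at common vertices -/
lemma full_mix {N : ℕ} {P : ι → ℕ → V} {p q : ℕ → V} (hp : Full N P p) (hq : Full N P q)
    (c : ℕ → Prop)
    (hc : ∀ t, t + 1 < N → p t ≠ q t → p (t + 1) ≠ q (t + 1) → (c t ↔ c (t + 1))) :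
    Full N P (fun t => if c t then q t else p t) := by
  constructor
  · intro t ht
    by_cases h : c t
    · simp only [h, if_true]; exact hq.vert t ht
    · simp only [h, if_false]; exact hp.vert t ht
  · intro t ht
    by_cases h : c t <;> by_cases h' : c (t + 1)
    · simp only [h, h', if_true]; exact hq.edge t ht
    · simp only [h, h', if_true, if_false]
      by_cases e : p t = q t
      · rw [← e]; exact hp.edge t ht
      · by_cases e' : p (t + 1) = q (t + 1)
        · rw [e']; exact hq.edge t ht
        · exact absurd ((hc t ht e e').1 h) h'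
    · simp only [h, h', if_true, if_false]
      by_cases e : p t = q t
      · rw [e]; exact hq.edge t ht
      · by_cases e' : p (t + 1) = q (t + 1)
        · rw [← e']; exact hp.edge t ht
        · exact absurd ((hc t ht e e').2 h') h
    · simp only [h, h', if_false]; exact hp.edge t ht

/-- `i` and `j` lie in the same gap between consecutive common vertices -/
def SG (p q : ℕ → V) (i j : ℕ) : Prop := ∀ l, min i j ≤ l → l ≤ max i j → p l ≠ q l

lemma SG.symm {p q : ℕ → V} {i j : ℕ} (h : SG p q i j) : SG p q j i := by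
  intro l h1 h2
  exact h l (by omega) (by omega)

lemma SG.trans {p q : ℕ → V} {i j k : ℕ} (h : SG p q i j) (h' : SG p q j k) : SG p q i k := by
  intro l h1 h2
  by_cases h3 : min i j ≤ l ∧ l ≤ max i j
  · exact h l h3.1 h3.2
  · exact h' l (by omega) (by omega)

lemma SG.swap {p q : ℕ → V} {i j : ℕ} (h : SG p q i j) : SG q p i j :=
  fun l h1 h2 => (h l h1 h2).symm

lemma SG.left {p q : ℕ → V} {i j : ℕ} (h : SG p q i j) : p i ≠ q i :=
  h i (by omega) (by omega)

lemma SG.right {p q : ℕ → V} {i j : ℕ} (h : SG p q i j) : p j ≠ q j :=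
  h j (by omega) (by omega)

lemma SG.self {p q : ℕ → V} {i : ℕ} (h : p i ≠ q i) : SG p q i i := by
  intro l h1 h2
  have : l = i := by omega
  rw [this]; exact h

lemma SG.succ {p q : ℕ → V} {i : ℕ} (h : p i ≠ q i) (h' : p (i + 1) ≠ q (i + 1)) :
    SG p q i (i + 1) := by
  intro l h1 h2
  have : l = i ∨ l = i + 1 := by omega
  rcases this with e | e <;> rw [e] <;> assumption

/-- the length of a spliced path -/
lemma splice {N : ℕ} {P : ι → ℕ → V} (hP : Fam G N P) (hL : LongN G N) {T1 T2 : ℕ → V}
    (h1 : Full N P T1) (h2 : Full N P T2) {a b : ℕ} (ha : a < N) (hb : b < N) {m : List V}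
    (hnd : m.Nodup) (hch : m.IsChain G.Adj) (hhead : m.head? = some (T1 a))
    (hlast : m.getLast? = some (T2 b)) (hd1 : ∀ l, l < a → T1 l ∉ m)
    (hd2 : ∀ l, b < l → l < N → T2 l ∉ m)
    (hd : ∀ l, b < l → l < a → T1 l ≠ T2 l) :
    a + m.length ≤ b + 1 := by
  have hm : m ≠ [] := by
    rintro rfl; simp at hhead
  have hp1 := h1.pathF hP
  have hp2 := h2.pathF hP
  have hlen := hL (seg T1 0 a ++ (m ++ seg T2 (b + 1) (N - 1 - b))) ⟨?_, ?_, ?_⟩
  · simp only [List.length_append, length_seg] at hlen
    omega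
  · simp [hm]
  · rw [List.nodup_append, List.nodup_append]
    refine ⟨seg_nodup hp1 (by omega), ⟨hnd, seg_nodup hp2 (by omega), ?_⟩, ?_⟩
    · rintro x hx y hy rfl
      obtain ⟨l, h3, h4, h5⟩ := mem_seg.1 hy
      exact hd2 l (by omega) (by omega) (by rw [h5]; exact hx)
    · rintro x hx y hy rfl
      obtain ⟨l, h3, h4, h5⟩ := mem_seg.1 hx
      rw [List.mem_append] at hy
      rcases hy with hy | hy
      · exact hd1 l (by omega) (by rw [h5]; exact hy)
      · obtain ⟨l', h6, h7, h8⟩ := mem_seg.1 hy
        have hl : l = l' := Full.lev hP h1 h2 (by omega) (by omega) (by rw [h5, h8])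
        subst hl
        exact hd l (by omega) (by omega) (by rw [h5, h8])
  · refine List.IsChain.append (seg_chain hp1 (by omega)) (List.IsChain.append hch
      (seg_chain hp2 (by omega)) ?_) ?_
    · intro x hx y hy
      rw [hlast] at hx
      simp only [Option.mem_def, Option.some.injEq] at hx
      obtain ⟨h3, h4⟩ := mem_head?_seg hy
      rw [← hx, h4]
      exact hp2.adj b (by omega)
    · intro x hx y hy
      obtain ⟨h3, h4⟩ := mem_getLast?_seg hx
      rw [List.head?_append, hhead] at hy
      simp only [Option.some_or, Option.mem_def, Option.some.injEq] at hy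
      rw [← hy, h4]
      have h5 := hp1.adj (a - 1) (by omega)
      have h6 : a - 1 + 1 = a := by omega
      rw [h6] at h5
      have h7 : 0 + a - 1 = a - 1 := by omega
      rw [h7]
      exact h5

end Pool.Agent.Helper72.LPth
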