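import Pool.Agent.Helper67.LPath.Defs

/-!
Longest paths as functions on an initial segment of the natural numbers, and the lists
made of pieces of such functions.
-/

namespace Pool.Agent.Helper72.LPth

open Pool.Agent.Helper67.LPath

variable {V : Type} {G : SimpleGraph V}

/-- the list `q a, ..., q (a + m - 1)` -/
def seg (q : ℕ → V) (a m : ℕ) : List V := (List.range' a m).map q

@[simp] lemma length_seg (q : ℕ → V) (a m : ℕ) : (seg q a m).length = m := by
  simp [seg]

lemma mem_seg {q : ℕ → V} {a m : ℕ} {v : V} :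
    v ∈ seg q a m ↔ ∃ t, a ≤ t ∧ t < a + m ∧ q t = v := by
  simp only [seg, List.mem_map, List.mem_range'_1]
  constructor
  · rintro ⟨t, ⟨h1, h2⟩, h3⟩; exact ⟨t, h1, h2, h3⟩
  · rintro ⟨t, h1, h2, h3⟩; exact ⟨t, ⟨h1, h2⟩, h3⟩

/-- `q 0, ..., q (N - 1)` is a path of `G` -/
structure PathF (G : SimpleGraph V) (N : ℕ) (q : ℕ → V) : Prop where
  adj : ∀ t, t + 1 < N → G.Adj (q t) (q (t + 1))
  inj : ∀ s t, s < N → t < N → q s = q t → s = t

lemma seg_nodup {N : ℕ} {q : ℕ → V} (h : PathF G N q) {a m : ℕ} (ham : a + m ≤ N) :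
    (seg q a m).Nodup := by
  refine List.Nodup.map_on ?_ List.nodup_range'
  intro x hx y hy hxy
  rw [List.mem_range'_1] at hx hy
  exact h.inj x y (by omega) (by omega) hxy

lemma seg_chain {N : ℕ} {q : ℕ → V} (h : PathF G N q) {a m : ℕ} (ham : a + m ≤ N) :
    (seg q a m).IsChain G.Adj := by
  rw [List.isChain_iff_getElem]
  intro i hi
  simp only [length_seg] at hi
  simp only [seg, List.getElem_map, List.getElem_range', one_mul]
  exact h.adj (a + i) (by omega)

lemma getLast?_seg (q : ℕ → V) (a m : ℕ) :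
    (seg q a (m + 1)).getLast? = some (q (a + m)) := by
  rw [List.getLast?_eq_getElem?]
  simp [seg]

lemma head?_seg (q : ℕ → V) (a m : ℕ) :
    (seg q a (m + 1)).head? = some (q a) := by
  simp [seg, List.range'_succ]

lemma mem_getLast?_seg {q : ℕ → V} {a m : ℕ} {x : V} (h : x ∈ (seg q a m).getLast?) :
    0 < m ∧ x = q (a + m - 1) := by
  cases m with
  | zero => simp [seg] at h
  | succ m =>
    rw [getLast?_seg] at h
    simp only [Option.mem_def, Option.some.injEq] at h
    exact ⟨by omega, by rw [← h]; congr 1⟩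

lemma mem_head?_seg {q : ℕ → V} {a m : ℕ} {x : V} (h : x ∈ (seg q a m).head?) :
    0 < m ∧ x = q a := by
  cases m with
  | zero => simp [seg] at h
  | succ m =>
    rw [head?_seg] at h
    simp only [Option.mem_def, Option.some.injEq] at h
    exact ⟨by omega, h.symm⟩

/-- A path of `G` given by a list is given by a function. -/
lemma exists_pathF {l : List V} (h : IsPathL G l) :
    ∃ q : ℕ → V, PathF G l.length q ∧ ∀ t, t < l.length → l[t]? = some (q t) := by
  obtain ⟨hne, hnd, hch⟩ := h
  have hpos : 0 < l.length := List.length_pos_iff.mpr hne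
  let q : ℕ → V := fun t => l[t]?.getD (l[0]'hpos)
  have hq : ∀ t, (ht : t < l.length) → q t = l[t] := by
    intro t ht
    simp [q, ht]
  refine ⟨q, ⟨?_, ?_⟩, ?_⟩
  · intro t ht
    rw [hq t (by omega), hq (t + 1) ht]
    exact (List.isChain_iff_getElem.1 hch) t ht
  · intro s t hs ht hst
    rw [hq s hs, hq t ht] at hst
    exact (List.Nodup.getElem_inj_iff hnd).1 hst
  · intro t ht
    rw [hq t ht]
    simp [ht]

/-- no path of `G` has more than `N` vertices -/
def LongN (G : SimpleGraph V) (N : ℕ) : Prop := ∀ m : List V, IsPathL G m → m.length ≤ N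

end Pool.Agent.Helper72.LPth
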