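import Pool.Agent.Helper72.LPth.Key

/-!
A pair of full sequences with as few common vertices as possible: the common vertices
lie on all full sequences. The main theorem for families with equal positions.
-/

namespace Pool.Agent.Helper72.LPth

open Pool.Agent.Helper67.LPath

variable {V : Type} {G : SimpleGraph V} {ι : Type}

/-- `f` before position `k`, `g` from `k` on -/
def cat (k : ℕ) (f g : ℕ → V) : ℕ → V := fun l => if l < k then f l else g l

lemma cat_lt {k : ℕ} {f g : ℕ → V} {l : ℕ} (h : l < k) : cat k f g l = f l := if_pos h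

lemma cat_ge {k : ℕ} {f g : ℕ → V} {l : ℕ} (h : k ≤ l) : cat k f g l = g l :=
  if_neg (by omega)

lemma full_cat {N : ℕ} {P : ι → ℕ → V} {f g : ℕ → V} (hf : Full N P f) (hg : Full N P g)
    {k : ℕ} (h : k = 0 ∨ N ≤ k ∨ f (k - 1) = g (k - 1) ∨ f k = g k) :
    Full N P (cat k f g) := by
  constructor
  · intro t ht
    by_cases h1 : t < k
    · rw [cat_lt h1]; exact hf.vert t ht
    · rw [cat_ge (by omega)]; exact hg.vert t ht
  · intro t ht
    by_cases h1 : t + 1 < k
    · rw [cat_lt h1, cat_lt (by omega)]; exact hf.edge t ht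
    · by_cases h2 : k ≤ t
      · rw [cat_ge h2, cat_ge (by omega)]; exact hg.edge t ht
      · have h3 : k = t + 1 := by omega
        subst h3
        rw [cat_lt (by omega), cat_ge le_rfl]
        rcases h with h | h | h | h
        · omega
        · omega
        · have h4 : t + 1 - 1 = t := by omega
          rw [h4] at h
          rw [h]; exact hg.edge t ht
        · rw [← h]; exact hf.edge t ht

lemma reroute_aux {N : ℕ} {P : ι → ℕ → V} {p q T : ℕ → V}
    (hp : Full N P p) (hq : Full N P q) (hT : Full N P T) {l0 a b : ℕ} (hal : a ≤ l0)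
    (hlb : l0 < b) (_hbN : b ≤ N) (he : p l0 = q l0)
    (hfree : ∀ l, a ≤ l → l < b → T l ≠ p l ∧ T l ≠ q l)
    (ha : a = 0 ∨ T (a - 1) = p (a - 1)) (hb : b = N ∨ T b = p b ∨ T b = q b) :
    ∃ p' q', Full N P p' ∧ Full N P q' ∧ (∀ l, l < N → p' l = q' l → p l = q l) ∧
      p' l0 ≠ q' l0 := by
  by_cases hb' : b = N ∨ T b = p b
  · refine ⟨cat a p (cat b T p), q, full_cat hp (full_cat hT hp ?_) ?_, hq, ?_, ?_⟩
    · rcases hb' with h | h
      · right; left; omega
      · right; right; right; exact h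
    · rcases ha with h | h
      · left; exact h
      · right; right; left
        rw [cat_lt (by omega), h]
    · intro l hl h
      by_cases h1 : l < a
      · rwa [cat_lt h1] at h
      · rw [cat_ge (by omega)] at h
        by_cases h2 : l < b
        · rw [cat_lt h2] at h
          exact absurd h (hfree l (by omega) h2).2
        · rwa [cat_ge (by omega)] at h
    · rw [cat_ge hal, cat_lt hlb]
      exact (hfree l0 hal hlb).2
  · have hb2 : T b = q b := by
      rcases hb with h | h | h
      · exact absurd (Or.inl h) hb'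
      · exact absurd (Or.inr h) hb'
      · exact h
    refine ⟨cat a p (cat b T q), cat (l0 + 1) q p, full_cat hp (full_cat hT hq ?_) ?_,
      full_cat hq hp ?_, ?_, ?_⟩
    · right; right; right; exact hb2
    · rcases ha with h | h
      · left; exact h
      · right; right; left
        rw [cat_lt (by omega), h]
    · right; right; left
      have : l0 + 1 - 1 = l0 := by omega
      rw [this, he]
    · intro l hl h
      by_cases h1 : l < a
      · rw [cat_lt h1, cat_lt (by omega)] at h
        exact h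
      · rw [cat_ge (by omega : a ≤ l)] at h
        by_cases h2 : l < b
        · rw [cat_lt h2] at h
          by_cases h3 : l < l0 + 1
          · rw [cat_lt h3] at h
            exact absurd h (hfree l (by omega) h2).2
          · rw [cat_ge (by omega)] at h
            exact absurd h (hfree l (by omega) h2).1
        · rw [cat_ge (by omega), cat_ge (by omega)] at h
          exact h.symm
    · rw [cat_ge hal, cat_lt hlb, cat_lt (by omega)]
      exact (hfree l0 hal hlb).2

lemma reroute {N : ℕ} {P : ι → ℕ → V} {p q T : ℕ → V}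
    (hp : Full N P p) (hq : Full N P q) (hT : Full N P T) {l0 : ℕ}
    (hl0 : l0 < N) (he : p l0 = q l0) (hne : T l0 ≠ p l0) :
    ∃ p' q', Full N P p' ∧ Full N P q' ∧ (∀ l, l < N → p' l = q' l → p l = q l) ∧
      p' l0 ≠ q' l0 := by
  classical
  have hf0 : T l0 ≠ p l0 ∧ T l0 ≠ q l0 := ⟨hne, by rw [← he]; exact hne⟩
  -- the right end
  have hexb : ∃ b, l0 < b ∧ (b = N ∨ ¬ (T b ≠ p b ∧ T b ≠ q b)) := ⟨N, hl0, Or.inl rfl⟩
  obtain ⟨b, hb1, hb2, hb3⟩ : ∃ b, l0 < b ∧ (b = N ∨ ¬ (T b ≠ p b ∧ T b ≠ q b)) ∧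
      ∀ l, l0 ≤ l → l < b → l ≠ N ∧ (T l ≠ p l ∧ T l ≠ q l) := by
    refine ⟨Nat.find hexb, (Nat.find_spec hexb).1, (Nat.find_spec hexb).2, ?_⟩
    intro l h1 h2
    rcases Nat.eq_or_lt_of_le h1 with h | h
    · rw [← h]; exact ⟨by omega, hf0⟩
    · have h3 := Nat.find_min hexb h2
      constructor
      · intro h4; exact h3 ⟨h, Or.inl h4⟩
      · by_contra h4
        exact h3 ⟨h, Or.inr h4⟩
  have hbN : b ≤ N := by
    by_contra h
    exact (hb3 N (by omega) (by omega)).1 rfl
  -- the left end
  have hexa : ∃ a, ∀ l, a ≤ l → l ≤ l0 → (T l ≠ p l ∧ T l ≠ q l) :=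
    ⟨l0, fun l h1 h2 => by
      have : l = l0 := by omega
      rw [this]; exact hf0⟩
  obtain ⟨a, ha1, ha2, ha3⟩ : ∃ a, a ≤ l0 ∧ (∀ l, a ≤ l → l ≤ l0 → (T l ≠ p l ∧ T l ≠ q l)) ∧
      (a = 0 ∨ ¬ (T (a - 1) ≠ p (a - 1) ∧ T (a - 1) ≠ q (a - 1))) := by
    refine ⟨Nat.find hexa, Nat.find_min' hexa ?_, Nat.find_spec hexa, ?_⟩
    · intro l h1 h2
      have : l = l0 := by omega
      rw [this]; exact hf0
    · rcases Nat.eq_zero_or_pos (Nat.find hexa) with h | h
      · left; exact h
      · right
        intro h1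
        refine Nat.find_min hexa (m := Nat.find hexa - 1) (by omega) ?_
        intro l h2 h3
        by_cases h4 : l = Nat.find hexa - 1
        · rw [h4]; exact h1
        · exact Nat.find_spec hexa l (by omega) h3
  have hfree : ∀ l, a ≤ l → l < b → T l ≠ p l ∧ T l ≠ q l := by
    intro l h1 h2
    by_cases h3 : l ≤ l0
    · exact ha2 l h1 h3
    · exact (hb3 l (by omega) h2).2
  have hb4 : b = N ∨ T b = p b ∨ T b = q b := by
    rcases hb2 with h | h
    · left; exact h
    · right
      by_contra h1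
      rw [not_or] at h1
      exact h h1
  rcases ha3 with h | h
  · exact reroute_aux hp hq hT ha1 hb1 hbN he hfree (Or.inl h) hb4
  · by_cases h1 : T (a - 1) = p (a - 1)
    · exact reroute_aux hp hq hT ha1 hb1 hbN he hfree (Or.inr h1) hb4
    · have h2 : T (a - 1) = q (a - 1) := by
        by_contra h3; exact h ⟨h1, h3⟩
      obtain ⟨p', q', h3, h4, h5, h6⟩ := reroute_aux hq hp hT ha1 hb1 hbN he.symm
        (fun l h7 h8 => ⟨(hfree l h7 h8).2, (hfree l h7 h8).1⟩) (Or.inr h2)
        (by rcases hb4 with h | h | h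
            · exact Or.inl h
            · exact Or.inr (Or.inr h)
            · exact Or.inr (Or.inl h))
      exact ⟨p', q', h3, h4, fun l hl h => (h5 l hl h).symm, h6⟩

/-- there are two full sequences whose common vertices lie on all full sequences -/
lemma exists_pair {N : ℕ} {P : ι → ℕ → V} [Nonempty ι] :
    ∃ p q, Full N P p ∧ Full N P q ∧
      ∀ l, l < N → p l = q l → ∀ T, Full N P T → T l = p l := by
  classical
  let i : ι := Classical.arbitrary ι
  have hex : ∃ n : ℕ, ∃ p q, Full N P p ∧ Full N P q ∧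
      ((Finset.range N).filter (fun l => p l = q l)).card = n :=
    ⟨_, P i, P i, full_self P i, full_self P i, rfl⟩
  obtain ⟨p, q, hp, hq, hn⟩ := Nat.find_spec hex
  refine ⟨p, q, hp, hq, ?_⟩
  intro l hl he T hT
  by_contra hne
  obtain ⟨p', q', hp', hq', h1, h2⟩ := reroute hp hq hT hl he hne
  have h3 : Nat.find hex ≤ ((Finset.range N).filter (fun l => p' l = q' l)).card :=
    Nat.find_min' hex ⟨p', q', hp', hq', rfl⟩
  have h4 : ((Finset.range N).filter (fun l => p' l = q' l)).card <
      ((Finset.range N).filter (fun l => p l = q l)).card := by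
    apply Finset.card_lt_card
    rw [Finset.ssubset_iff_of_subset]
    · refine ⟨l, ?_, ?_⟩
      · rw [Finset.mem_filter, Finset.mem_range]; exact ⟨hl, he⟩
      · rw [Finset.mem_filter]
        exact fun h => h2 h.2
    · intro k hk
      rw [Finset.mem_filter, Finset.mem_range] at hk ⊢
      exact ⟨hk.1, h1 k hk.1 hk.2⟩
  omega

open Classical in
theorem main {N : ℕ} {P : ι → ℕ → V} [Nonempty ι] (hG : G.Connected) (hN : 0 < N)
    (hP : Fam G N P) (hL : LongN G N) {r : ℕ → V} (hr : PathF G N r) :
    ∃ s t, s < N ∧ t < N ∧ ∀ i, P i t = r s := by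
  by_contra hcon
  obtain ⟨p, q, hp, hq, hpq⟩ := exists_pair (N := N) (P := P)
  have hcut : ∀ l, l < N → p l = q l → ∀ u, u < N → r u ≠ p l := by
    intro l hl he u hu h
    apply hcon
    refine ⟨u, l, hu, hl, fun i => ?_⟩
    rw [hpq l hl he _ (full_self P i), h]
  -- a pair of vertices of `r` on both sides of a gap
  have hB : ∃ d s t a b, s < N ∧ t < N ∧ a < N ∧ b < N ∧ r s = p a ∧ r t = q b ∧ SG p q a b ∧
      (s - t) + (t - s) = d := by
    by_contra hno
    obtain ⟨c, hc⟩ : ∃ c : ℕ → Prop, ∀ l, c l ↔ ∃ l', l' < N ∧ SG p q l l' ∧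
        ∃ u, u < N ∧ r u = p l' := ⟨_, fun _ => Iff.rfl⟩
    have hcc : ∀ l l', SG p q l l' → (c l ↔ c l') := by
      intro l l' h
      rw [hc, hc]
      constructor
      · rintro ⟨k, hk, h1, h2⟩
        exact ⟨k, hk, h.symm.trans h1, h2⟩
      · rintro ⟨k, hk, h1, h2⟩
        exact ⟨k, hk, h.trans h1, h2⟩
    have hT : Full N P (fun t => if c t then q t else p t) :=
      full_mix hp hq c (fun t ht e e' => hcc _ _ (SG.succ e e'))
    obtain ⟨s, l, hs, hl, hsl⟩ := exists_common hG hL hN hr (hT.pathF hP)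
    by_cases h : c l
    · simp only [h, if_true] at hsl
      obtain ⟨l', hl', h1, u, hu, h2⟩ := (hc l).1 h
      exact hno ⟨_, u, s, l', l, hu, hs, hl', hl, h2, hsl, h1.symm, rfl⟩
    · simp only [h, if_false] at hsl
      by_cases e : p l = q l
      · exact hcut l hl e s hs hsl
      · exact h ((hc l).2 ⟨l, hl, SG.self e, s, hs, hsl⟩)
  obtain ⟨s, t, a, b, hs, ht, ha, hb, hsa, htb, hab, hd⟩ := Nat.find_spec hB
  have hmin : ∀ u v a' b', u < N → v < N → (u - v) + (v - u) < (s - t) + (t - s) →
      a' < N → b' < N → r u = p a' → r v = q b' → SG p q a' b' → False := by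
    intro u v a' b' hu hv h ha' hb' h1 h2 h3
    have := Nat.find_min' hB ⟨u, v, a', b', hu, hv, ha', hb', h1, h2, h3, rfl⟩
    omega
  rcases Nat.lt_trichotomy s t with h | h | h
  · refine key hP hL hp hq hr (fun l hl e u _ hu => hcut l hl e u (by omega))
      h ht ha hb hsa htb hab ?_
    intro u v a' b' h1 h2 h3 h4 h5 ha' hb' h6 h7 h8
    exact hmin u v a' b' (by omega) (by omega) (by omega) ha' hb' h6 h7 h8
  · subst h
    rw [hsa] at htb
    have := Full.lev hP hp hq ha hb htb
    subst this
    exact hab.left htb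
  · refine key hP hL hq hp hr (fun l hl e u _ hu => by rw [e]; exact hcut l hl e.symm u (by omega))
      h hs hb ha htb hsa hab.symm.swap ?_
    intro u v a' b' h1 h2 h3 h4 h5 ha' hb' h6 h7 h8
    exact hmin v u b' a' (by omega) (by omega) (by omega) hb' ha' h7 h6 h8.symm.swap

end Pool.Agent.Helper72.LPth
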