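import Pool.Agent.Helper72.LPth.Exch

/-!
Decompositions of lists, replacement of blocks, mixtures, and a short connecting piece
of the third path.
-/

namespace Pool.Agent.Helper72.LPth

open Pool.Agent.Helper67.LPath

variable {V : Type} {G : SimpleGraph V}

lemma front {p : V → Bool} {L X W : List V} (h : L.filter p = X ++ W) :
    ∃ L1 L2, L = L1 ++ L2 ∧ L1.filter p = X ∧ L2.filter p = W ∧ L1.getLast? = X.getLast? := by
  rcases List.eq_nil_or_concat X with h' | ⟨X', c, h'⟩
  · subst h'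
    exact ⟨[], L, rfl, rfl, by simpa using h, rfl⟩
  · subst h'
    have h1 : L.filter p = X' ++ (c :: W) := by rw [h]; simp
    obtain ⟨La, Lb, rfl, h2, h3⟩ := List.filter_eq_append_iff.1 h1
    obtain ⟨l1, l2, rfl, h4, h5, h6⟩ := List.filter_eq_cons_iff.1 h3
    refine ⟨La ++ (l1 ++ [c]), l2, by simp, ?_, h6, by simp⟩
    have h7 : l1.filter p = [] := List.filter_eq_nil_iff.2 h4
    rw [List.filter_append, List.filter_append, h2, h7, List.filter_cons_of_pos h5]
    simp

lemma back {p : V → Bool} {L W Z : List V} (h : L.filter p = W ++ Z) :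
    ∃ L1 L2, L = L1 ++ L2 ∧ L1.filter p = W ∧ L2.filter p = Z ∧ L2.head? = Z.head? := by
  cases Z with
  | nil => exact ⟨L, [], by simp, by simpa using h, rfl, rfl⟩
  | cons c Z =>
    obtain ⟨La, Lb, rfl, h2, h3⟩ := List.filter_eq_append_iff.1 h
    obtain ⟨l1, l2, rfl, h4, h5, h6⟩ := List.filter_eq_cons_iff.1 h3
    refine ⟨La ++ l1, c :: l2, by simp, ?_, ?_, by simp⟩
    · have h7 : l1.filter p = [] := List.filter_eq_nil_iff.2 h4
      rw [List.filter_append, h2, h7, List.append_nil]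
    · rw [List.filter_cons_of_pos h5, h6]

lemma chain_rep {R : V → V → Prop} {a m m' c : List V} (h : (a ++ (m ++ c)).IsChain R)
    (hm' : m'.IsChain R) (hh : a = [] ∨ m'.head? = m.head?)
    (hl : c = [] ∨ m'.getLast? = m.getLast?) : (a ++ (m' ++ c)).IsChain R := by
  rw [List.isChain_append, List.isChain_append] at h ⊢
  obtain ⟨h1, ⟨-, h2, h3⟩, h4⟩ := h
  refine ⟨h1, ⟨hm', h2, ?_⟩, ?_⟩
  · rcases hl with rfl | hl
    · intro x _ y hy; simp at hy
    · rw [hl]; exact h3
  · rcases hh with rfl | hh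
    · intro x hx; simp at hx
    · rw [List.head?_append, hh, ← List.head?_append]; exact h4

/-- position-wise mixture -/
def Mx (t a b : List V) : Prop := ∀ i : ℕ, t[i]? = a[i]? ∨ t[i]? = b[i]?

lemma Mx.mem {t a b : List V} (h : Mx t a b) {v : V} (hv : v ∈ t) : v ∈ a ∨ v ∈ b := by
  obtain ⟨i, hi⟩ := List.mem_iff_getElem?.1 hv
  rcases h i with h1 | h1
  · left; exact List.mem_iff_getElem?.2 ⟨i, by rw [← h1, hi]⟩
  · right; exact List.mem_iff_getElem?.2 ⟨i, by rw [← h1, hi]⟩

lemma Mx.eq {t a : List V} (h : Mx t a a) : t = a :=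
  List.ext_getElem? fun i => by rcases h i with h1 | h1 <;> exact h1

lemma Mx.length {t a b : List V} (h : Mx t a b) (hab : a.length = b.length) :
    t.length = a.length := by
  apply le_antisymm
  · rcases h a.length with h1 | h1
    · rw [List.getElem?_eq_none le_rfl] at h1
      exact List.getElem?_eq_none_iff.1 h1
    · rw [hab, List.getElem?_eq_none le_rfl] at h1
      rw [hab]; exact List.getElem?_eq_none_iff.1 h1
  · rcases h t.length with h1 | h1
    · rw [List.getElem?_eq_none le_rfl] at h1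
      exact List.getElem?_eq_none_iff.1 h1.symm
    · rw [List.getElem?_eq_none le_rfl] at h1
      rw [hab]; exact List.getElem?_eq_none_iff.1 h1.symm

lemma Mx.head? {t a b : List V} (h : Mx t a b) (hab : a.head? = b.head?) :
    t.head? = a.head? := by
  rw [List.head?_eq_getElem?] at hab ⊢
  rw [List.head?_eq_getElem?] at hab
  rw [List.head?_eq_getElem?]
  rcases h 0 with h1 | h1
  · exact h1
  · rw [h1, hab]

lemma Mx.getLast? {t a b : List V} (h : Mx t a b) (hlen : a.length = b.length)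
    (hab : a.getLast? = b.getLast?) : t.getLast? = a.getLast? := by
  have h0 := h.length hlen
  rw [List.getLast?_eq_getElem?] at hab ⊢
  rw [List.getLast?_eq_getElem?] at hab
  rw [List.getLast?_eq_getElem?, h0]
  rcases h (a.length - 1) with h1 | h1
  · exact h1
  · rw [h1, hab, hlen]

lemma Mx.split {t a b c d : List V} (h : Mx t (a ++ b) (c ++ d)) (hac : a.length = c.length) :
    ∃ t1 t2, t = t1 ++ t2 ∧ Mx t1 a c ∧ Mx t2 b d := by
  refine ⟨t.take a.length, t.drop a.length, (List.take_append_drop _ _).symm, ?_, ?_⟩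
  · intro i
    by_cases hi : i < a.length
    · rw [List.getElem?_take_of_lt hi]
      rcases h i with h1 | h1
      · left; rw [h1, List.getElem?_append_left hi]
      · right; rw [h1, List.getElem?_append_left (by omega)]
    · left
      rw [List.getElem?_eq_none (by rw [List.length_take]; omega),
        List.getElem?_eq_none (by omega)]
  · intro i
    rw [List.getElem?_drop]
    rcases h (a.length + i) with h1 | h1
    · left; rw [h1, List.getElem?_append_right (by omega)]; congr 1; omega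
    · right; rw [h1, List.getElem?_append_right (by omega)]; congr 1; omega

lemma len_block {P P2 a a' m m' c c' : List V}
    (hal : ∀ (i j : ℕ) (v : V), P[i]? = some v → P2[j]? = some v → i = j)
    (hP : P = a ++ (m ++ c)) (hP2 : P2 = a' ++ (m' ++ c')) (h : m.getLast? = m'.getLast?)
    (haa : a.length = a'.length) : m.length = m'.length := by
  rcases List.eq_nil_or_concat m with h1 | ⟨l, v, h1⟩
  · subst h1
    have h2 : m' = [] := List.getLast?_eq_none_iff.1 h.symm
    rw [h2]
  · have h2 : m'.getLast? = some v := by rw [← h, h1]; simp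
    obtain ⟨l', h3⟩ := List.getLast?_eq_some_iff.1 h2
    have h4 : P[a.length + l.length]? = some v := by
      rw [hP, h1, List.getElem?_append_right (by omega)]
      have : a.length + l.length - a.length = l.length := by omega
      rw [this]; simp
    have h5 : P2[a'.length + l'.length]? = some v := by
      rw [hP2, h3, List.getElem?_append_right (by omega)]
      have : a'.length + l'.length - a'.length = l'.length := by omega
      rw [this]; simp
    have h6 := hal _ _ _ h4 h5
    rw [h1, h3]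
    simp
    omega

/-- a short piece of the third path between two sets -/
lemma exists_close {N : ℕ} {R PA PB : List V} (hR : LP G N R) (hA : ∃ v ∈ R, v ∈ PA)
    (hB : ∃ v ∈ R, v ∈ PB) (hAB : ∀ v ∈ PA, v ∉ PB) :
    ∃ l1 x ρ y l2, LP G N (l1 ++ x :: (ρ ++ y :: l2)) ∧
      (∀ v ∈ l1 ++ x :: (ρ ++ y :: l2), v ∈ R) ∧ x ∈ PA ∧ y ∈ PB ∧
      ∀ v ∈ ρ, v ∉ PA ∧ v ∉ PB := by
  have step : ∀ (n : ℕ) (l1 : List V) (x : V) (ρ : List V) (y : V) (l2 : List V),
      ρ.length = n → LP G N (l1 ++ x :: (ρ ++ y :: l2)) →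
      (∀ v ∈ l1 ++ x :: (ρ ++ y :: l2), v ∈ R) → x ∈ PA → y ∈ PB →
      ∃ l1 x ρ y l2, LP G N (l1 ++ x :: (ρ ++ y :: l2)) ∧
      (∀ v ∈ l1 ++ x :: (ρ ++ y :: l2), v ∈ R) ∧ x ∈ PA ∧ y ∈ PB ∧
      ∀ v ∈ ρ, v ∉ PA ∧ v ∉ PB := by
    intro n
    induction n using Nat.strong_induction_on with
    | _ n ih =>
      intro l1 x ρ y l2 hn hLP hmem hx hy
      by_cases h : ∀ v ∈ ρ, v ∉ PA ∧ v ∉ PB
      · exact ⟨l1, x, ρ, y, l2, hLP, hmem, hx, hy, h⟩
      · push Not at h
        obtain ⟨z, hz, hz'⟩ := h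
        obtain ⟨ρ1, ρ2, rfl⟩ := List.append_of_mem hz
        rw [List.length_append, List.length_cons] at hn
        by_cases hzA : z ∈ PA
        · refine ih ρ2.length (by omega) (l1 ++ x :: ρ1) z ρ2 y l2 rfl ?_ ?_ hzA hy
          · simpa using hLP
          · intro v hv; apply hmem; simpa using hv
        · have hzB := hz' hzA
          refine ih ρ1.length (by omega) l1 x ρ1 z (ρ2 ++ y :: l2) rfl ?_ ?_ hx hzB
          · simpa using hLP
          · intro v hv; apply hmem; simpa using hv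
  obtain ⟨x, hxR, hx⟩ := hA
  obtain ⟨y, hyR, hy⟩ := hB
  obtain ⟨l1, l2, h1⟩ := List.append_of_mem hxR
  have hyx : y ≠ x := by rintro rfl; exact hAB y hx hy
  have hy' : y ∈ l1 ∨ y ∈ l2 := by
    rw [h1, List.mem_append, List.mem_cons] at hyR
    rcases hyR with h | h | h
    · exact Or.inl h
    · exact absurd h hyx
    · exact Or.inr h
  rcases hy' with h | h
  · obtain ⟨l3, l4, h2⟩ := List.append_of_mem h
    have h3 : R.reverse = l2.reverse ++ x :: (l4.reverse ++ y :: l3.reverse) := by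
      rw [h1, h2]; simp
    refine step _ l2.reverse x l4.reverse y l3.reverse rfl ?_ ?_ hx hy
    · rw [← h3]; exact hR.rev
    · rw [← h3]; intro v hv; exact List.mem_reverse.1 hv
  · obtain ⟨ρ, l3, h2⟩ := List.append_of_mem h
    refine step _ l1 x ρ y l3 rfl ?_ ?_ hx hy
    · rw [← h2, ← h1]; exact hR
    · rw [← h2, ← h1]; intro v hv; exact hv

variable [DecidableEq V]

lemma engine {N : ℕ} (hG : G.Connected) (hN : 0 < N) (hL : LongN G N)
    {P P2 Q Q2 R PA PB : List V} (hP : LP G N P) (hP2 : LP G N P2)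
    (fP : P.filter (· ∈ P2) = P2.filter (· ∈ P)) (hQ : LP G N Q) (hQ2 : LP G N Q2)
    (fQ : Q.filter (· ∈ Q2) = Q2.filter (· ∈ Q)) (hR : LP G N R)
    (hcon : ∀ v ∈ R, v ∈ P → v ∉ Q) (hPA : ∀ v, v ∈ P → v ∈ P2 → v ∉ Q → v ∈ PA)
    (hQB : ∀ v, v ∈ Q → v ∈ Q2 → v ∉ P → v ∈ PB) (hAB : ∀ v ∈ PA, v ∉ PB) :
    ∃ T x ρ y, LP G N T ∧ Mx T P P2 ∧ x ∈ PA ∧ y ∈ PB ∧ (x :: (ρ ++ [y])).IsChain G.Adj ∧
      ρ.Nodup ∧ ∀ v ∈ ρ, v ∉ T ∧ v ∉ PA ∧ v ∉ PB := by
  have hA : ∃ v ∈ R, v ∈ PA := by
    obtain ⟨v, h1, h2, h3⟩ := exists_meet hG hN hL hP hP2 fP hR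
    exact ⟨v, h1, hPA v h2 h3 (hcon v h1 h2)⟩
  have hB : ∃ v ∈ R, v ∈ PB := by
    obtain ⟨v, h1, h2, h3⟩ := exists_meet hG hN hL hQ hQ2 fQ hR
    exact ⟨v, h1, hQB v h2 h3 fun h => hcon v h1 h h2⟩
  obtain ⟨l1, x, ρ, y, l2, hR', hmem, hx, hy, hρ⟩ := exists_close hR hA hB hAB
  have hcut : ∀ v ∈ ρ, v ∈ P → v ∈ P2 → False := by
    intro v hv h1 h2
    have h3 : v ∈ R := hmem v (by simp [hv])
    exact (hρ v hv).1 (hPA v h1 h2 (hcon v h3 h1))
  have hlen := hR'.len
  rw [List.length_append, List.length_cons, List.length_append, List.length_cons] at hlen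
  have hget : ∀ (u : ℕ) (v : V), l1.length < u → u < l1.length + ρ.length + 1 →
      (l1 ++ x :: (ρ ++ y :: l2))[u]? = some v → v ∈ ρ := by
    intro u v h1 h2 h3
    rw [List.getElem?_append_right (by omega)] at h3
    obtain ⟨w, hw⟩ : ∃ w, u - l1.length = w + 1 := ⟨u - l1.length - 1, by omega⟩
    rw [hw, List.getElem?_cons_succ, List.getElem?_append_left (by omega)] at h3
    exact List.mem_of_getElem? h3
  obtain ⟨T, hT, hM, hav⟩ := exists_mixture hN hL hP hP2 fP hR' (s := l1.length)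
    (t := l1.length + ρ.length + 1) (by omega)
    (fun u v h1 h2 h3 h4 h5 => hcut v (hget u v h1 h2 h3) h4 h5)
  have hch := hR'.ch
  rw [List.isChain_split] at hch
  have hch2 := hch.2
  rw [← List.cons_append, List.isChain_split] at hch2
  have hnd := hR'.nd
  refine ⟨T, x, ρ, y, hT, hM, hx, hy, hch2.1, ?_, ?_⟩
  · have h1 := (List.nodup_append.1 hnd).2.1
    rw [List.nodup_cons] at h1
    exact (List.nodup_append.1 h1.2).1
  · intro v hv
    refine ⟨?_, hρ v hv⟩
    obtain ⟨i, hi⟩ := List.mem_iff_getElem?.1 hv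
    have hi' : i < ρ.length := by
      rw [List.getElem?_eq_some_iff] at hi
      exact hi.1
    refine hav (l1.length + (i + 1)) v (by omega) (by omega) ?_
    rw [List.getElem?_append_right (by omega)]
    have : l1.length + (i + 1) - l1.length = i + 1 := by omega
    rw [this, List.getElem?_cons_succ, List.getElem?_append_left hi', hi]

end Pool.Agent.Helper72.LPth
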