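import Pool.Agent.Helper72.LPth.Pair

/-!
Exchange arguments for two longest paths and a connecting path.
-/

set_option linter.unusedSimpArgs false

namespace Pool.Agent.Helper72.LPth

open Pool.Agent.Helper67.LPath

variable {V : Type} {G : SimpleGraph V}

/-- exchange at one connecting path -/
lemma exS {N : ℕ} (hL : LenLe G N) {α β α' β' ρ : List V} {x y : V}
    (c1 : (α ++ x :: β).IsChain G.Adj) (l1 : (α ++ x :: β).length = N)
    (c2 : (α' ++ y :: β').IsChain G.Adj) (l2 : (α' ++ y :: β').length = N)
    (cρ : (x :: (ρ ++ [y])).IsChain G.Adj)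
    (n1 : (α ++ x :: (ρ ++ y :: β')).Nodup)
    (n2 : (α' ++ y :: (ρ.reverse ++ x :: β)).Nodup) : False := by
  have cρ' : (y :: (ρ.reverse ++ [x])).IsChain G.Adj := by
    have h := isChain_rev cρ
    simpa using h
  have h1 := hL _ n1 (by
    rw [List.isChain_split]
    refine ⟨(List.isChain_split.1 c1).1, ?_⟩
    rw [← List.cons_append, List.isChain_split]
    exact ⟨cρ, (List.isChain_split.1 c2).2⟩)
  have h2 := hL _ n2 (by
    rw [List.isChain_split]
    refine ⟨(List.isChain_split.1 c2).1, ?_⟩
    rw [← List.cons_append, List.isChain_split]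
    exact ⟨cρ', (List.isChain_split.1 c1).2⟩)
  simp only [List.length_append, List.length_cons, List.length_reverse] at h1 h2 l1 l2
  omega

/-- exchange at a connecting path and a common vertex -/
lemma exT {N : ℕ} (hL : LenLe G N) {α β γ α' β' γ' ρ : List V} {x y c : V}
    (c1 : (α ++ x :: (β ++ c :: γ)).IsChain G.Adj) (l1 : (α ++ x :: (β ++ c :: γ)).length = N)
    (c2 : (α' ++ y :: (β' ++ c :: γ')).IsChain G.Adj)
    (l2 : (α' ++ y :: (β' ++ c :: γ')).length = N)
    (cρ : (x :: (ρ ++ [y])).IsChain G.Adj)
    (n1 : (α ++ x :: (ρ ++ y :: (β' ++ c :: γ))).Nodup)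
    (n2 : (α' ++ y :: (ρ.reverse ++ x :: (β ++ c :: γ'))).Nodup) : False := by
  have cρ' : (y :: (ρ.reverse ++ [x])).IsChain G.Adj := by
    have h := isChain_rev cρ
    simpa using h
  have h1x := (List.isChain_split.1 c1).2
  have h2y := (List.isChain_split.1 c2).2
  rw [← List.cons_append, List.isChain_split] at h1x h2y
  have h1 := hL _ n1 (by
    rw [List.isChain_split]
    refine ⟨(List.isChain_split.1 c1).1, ?_⟩
    rw [← List.cons_append, List.isChain_split]
    refine ⟨cρ, ?_⟩
    rw [← List.cons_append, List.isChain_split]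
    exact ⟨h2y.1, h1x.2⟩)
  have h2 := hL _ n2 (by
    rw [List.isChain_split]
    refine ⟨(List.isChain_split.1 c2).1, ?_⟩
    rw [← List.cons_append, List.isChain_split]
    refine ⟨cρ', ?_⟩
    rw [← List.cons_append, List.isChain_split]
    exact ⟨h1x.1, h2y.2⟩)
  simp only [List.length_append, List.length_cons, List.length_reverse] at h1 h2 l1 l2
  omega

variable [DecidableEq V]

/-- indicator -/
def ind (x v : V) : ℕ := [x].count v

lemma cnt_cons (x v : V) (l : List V) : (x :: l).count v = ind x v + l.count v := by
  rw [ind, ← List.singleton_append, List.count_append]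

lemma cnt_zero {l : List V} {v : V} : l.count v = 0 ↔ v ∉ l := List.count_eq_zero

lemma nd_cnt {l : List V} : l.Nodup ↔ ∀ v, l.count v ≤ 1 := List.nodup_iff_count_le_one

lemma dj_cnt {l l' : List V} (h : ∀ v ∈ l, v ∉ l') (v : V) : l.count v = 0 ∨ l'.count v = 0 := by
  by_cases hv : v ∈ l
  · exact Or.inr (cnt_zero.2 (h v hv))
  · exact Or.inl (cnt_zero.2 hv)

/-- the hypotheses on the connecting path -/
structure Brd (G : SimpleGraph V) (P Q ρ : List V) (x y : V) : Prop where
  ch : (x :: (ρ ++ [y])).IsChain G.Adj
  nd : ρ.Nodup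
  dP : ∀ v ∈ ρ, v ∉ P
  dQ : ∀ v ∈ ρ, v ∉ Q

omit [DecidableEq V] in
lemma head_dec {l : List V} (h : l ≠ []) : ∃ c l', l = c :: l' := by
  cases l with
  | nil => exact absurd rfl h
  | cons c l' => exact ⟨c, l', rfl⟩

omit [DecidableEq V] in
lemma last_dec {l : List V} (h : l ≠ []) : ∃ l' c, l = l' ++ [c] := by
  rcases List.eq_nil_or_concat l with h' | ⟨l', c, h'⟩
  · exact absurd h' h
  · exact ⟨l', c, by rw [h']; simp⟩

lemma core1 {N : ℕ} (hL : LenLe G N) {M1 M2 M3 A A' B B' ρ : List V} {x y : V}
    (hP : LP G N (M1 ++ (A ++ (M2 ++ (A' ++ M3)))))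
    (hQ : LP G N (M1 ++ (B ++ (M2.reverse ++ (B' ++ M3))))) (hM : M2 ≠ [])
    (hρ : Brd G (M1 ++ (A ++ (M2 ++ (A' ++ M3)))) (M1 ++ (B ++ (M2.reverse ++ (B' ++ M3)))) ρ x y)
    (hAB : ∀ v ∈ A ++ A', v ∉ B ++ B') (hx : x ∈ A ++ A') (hy : y ∈ B ++ B') : False := by
  have f1 := nd_cnt.1 hP.nd
  have f2 := nd_cnt.1 hQ.nd
  have f3 := nd_cnt.1 hρ.nd
  have f4 := dj_cnt hρ.dP
  have f5 := dj_cnt hρ.dQ
  have f6 := dj_cnt hAB
  have c1 := hP.ch
  have c2 := hQ.ch
  have c1r := isChain_rev hP.ch
  have c2r := isChain_rev hQ.ch
  have l1 := hP.len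
  have l2 := hQ.len
  rw [List.mem_append] at hx hy
  rcases hx with hx | hx <;> rcases hy with hy | hy <;>
    obtain ⟨A1, A2, rfl⟩ := List.append_of_mem hx <;>
    obtain ⟨B1, B2, rfl⟩ := List.append_of_mem hy
  · refine exS hL (α := M1 ++ A1) (β := A2 ++ (M2 ++ (A' ++ M3))) (α' := M1 ++ B1)
      (β' := B2 ++ (M2.reverse ++ (B' ++ M3))) (ρ := ρ) (x := x) (y := y) ?_ ?_ ?_ ?_ hρ.ch ?_ ?_
    · simpa using c1
    · simpa using l1
    · simpa using c2
    · simpa using l2
    · rw [nd_cnt]; intro v
      specialize f1 v; specialize f2 v; specialize f3 v; specialize f4 v; specialize f5 v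
      specialize f6 v
      simp only [List.count_append, cnt_cons, List.count_reverse] at f1 f2 f3 f4 f5 f6 ⊢
      omega
    · rw [nd_cnt]; intro v
      specialize f1 v; specialize f2 v; specialize f3 v; specialize f4 v; specialize f5 v
      specialize f6 v
      simp only [List.count_append, cnt_cons, List.count_reverse] at f1 f2 f3 f4 f5 f6 ⊢
      omega
  · -- A and B'
    obtain ⟨c, W, rfl⟩ := head_dec hM
    refine exT hL (α := M1 ++ A1) (β := A2) (c := c) (γ := W ++ (A' ++ M3))
      (α' := M3.reverse ++ B2.reverse) (β' := B1.reverse)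
      (γ' := W ++ (B.reverse ++ M1.reverse)) (ρ := ρ) (x := x) (y := y)
      ?_ ?_ ?_ ?_ hρ.ch ?_ ?_
    · simpa using c1
    · simpa using l1
    · simpa using c2r
    · simp only [List.length_append, List.length_cons, List.length_reverse] at l2 ⊢
      omega
    · rw [nd_cnt]; intro v
      specialize f1 v; specialize f2 v; specialize f3 v; specialize f4 v; specialize f5 v
      specialize f6 v
      simp only [List.count_append, cnt_cons, List.count_reverse] at f1 f2 f3 f4 f5 f6 ⊢
      omega
    · rw [nd_cnt]; intro v
      specialize f1 v; specialize f2 v; specialize f3 v; specialize f4 v; specialize f5 v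
      specialize f6 v
      simp only [List.count_append, cnt_cons, List.count_reverse] at f1 f2 f3 f4 f5 f6 ⊢
      omega
  · -- A' and B
    obtain ⟨W, c, rfl⟩ := last_dec hM
    refine exT hL (α := M3.reverse ++ A2.reverse) (β := A1.reverse) (c := c)
      (γ := W.reverse ++ (A.reverse ++ M1.reverse))
      (α' := M1 ++ B1) (β' := B2)
      (γ' := W.reverse ++ (B' ++ M3)) (ρ := ρ) (x := x) (y := y)
      ?_ ?_ ?_ ?_ hρ.ch ?_ ?_
    · simpa using c1r
    · simp only [List.length_append, List.length_cons, List.length_reverse, List.length_nil] at l1 ⊢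
      omega
    · simpa using c2
    · simp only [List.length_append, List.length_cons, List.length_reverse, List.length_nil] at l2 ⊢
      omega
    · rw [nd_cnt]; intro v
      specialize f1 v; specialize f2 v; specialize f3 v; specialize f4 v; specialize f5 v
      specialize f6 v
      simp only [List.count_append, cnt_cons, List.count_reverse, List.count_nil] at f1 f2 f3 f4 f5 f6 ⊢
      omega
    · rw [nd_cnt]; intro v
      specialize f1 v; specialize f2 v; specialize f3 v; specialize f4 v; specialize f5 v
      specialize f6 v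
      simp only [List.count_append, cnt_cons, List.count_reverse, List.count_nil] at f1 f2 f3 f4 f5 f6 ⊢
      omega
  · refine exS hL (α := M1 ++ (A ++ (M2 ++ A1))) (β := A2 ++ M3)
      (α' := M1 ++ (B ++ (M2.reverse ++ B1)))
      (β' := B2 ++ M3) (ρ := ρ) (x := x) (y := y) ?_ ?_ ?_ ?_ hρ.ch ?_ ?_
    · simpa using c1
    · simpa using l1
    · simpa using c2
    · simpa using l2
    · rw [nd_cnt]; intro v
      specialize f1 v; specialize f2 v; specialize f3 v; specialize f4 v; specialize f5 v
      specialize f6 v
      simp only [List.count_append, cnt_cons, List.count_reverse] at f1 f2 f3 f4 f5 f6 ⊢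
      omega
    · rw [nd_cnt]; intro v
      specialize f1 v; specialize f2 v; specialize f3 v; specialize f4 v; specialize f5 v
      specialize f6 v
      simp only [List.count_append, cnt_cons, List.count_reverse] at f1 f2 f3 f4 f5 f6 ⊢
      omega

lemma core2 {N : ℕ} (hL : LenLe G N) {U W A0 A1 A2 B0 B1 B2 ρ : List V} {x y : V}
    (hP : LP G N (A0 ++ (U ++ (A1 ++ (W ++ A2)))))
    (hQ : LP G N (B0 ++ (W ++ (B1 ++ (U ++ B2))))) (hU : U ≠ []) (hW : W ≠ [])
    (hρ : Brd G (A0 ++ (U ++ (A1 ++ (W ++ A2)))) (B0 ++ (W ++ (B1 ++ (U ++ B2)))) ρ x y)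
    (hAB : ∀ v ∈ A0 ++ (A1 ++ A2), v ∉ B0 ++ (B1 ++ B2)) (hx : x ∈ A0 ++ (A1 ++ A2))
    (hy : y ∈ B0 ++ (B1 ++ B2)) : False := by
  have f1 := nd_cnt.1 hP.nd
  have f2 := nd_cnt.1 hQ.nd
  have f3 := nd_cnt.1 hρ.nd
  have f4 := dj_cnt hρ.dP
  have f5 := dj_cnt hρ.dQ
  have f6 := dj_cnt hAB
  have c1 := hP.ch
  have c2 := hQ.ch
  have c1r := isChain_rev hP.ch
  have c2r := isChain_rev hQ.ch
  have l1 := hP.len
  have l2 := hQ.len
  rw [List.mem_append, List.mem_append] at hx hy
  rcases hx with hx | hx | hx <;> rcases hy with hy | hy | hy <;>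
    obtain ⟨A3, A4, rfl⟩ := List.append_of_mem hx <;>
    obtain ⟨B3, B4, rfl⟩ := List.append_of_mem hy
  · refine exS hL (α := A3) (β := A4 ++ (U ++ (A1 ++ (W ++ A2))))
      (α' := B3)
      (β' := B4 ++ (W ++ (B1 ++ (U ++ B2)))) (ρ := ρ) (x := x) (y := y) ?_ ?_ ?_ ?_ hρ.ch ?_ ?_
    · simpa using c1
    · simp only [List.length_append, List.length_cons, List.length_reverse, List.length_nil] at l1 ⊢
      omega
    · simpa using c2
    · simp only [List.length_append, List.length_cons, List.length_reverse, List.length_nil] at l2 ⊢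
      omega
    · rw [nd_cnt]; intro v
      specialize f1 v; specialize f2 v; specialize f3 v; specialize f4 v; specialize f5 v
      specialize f6 v
      simp only [List.count_append, cnt_cons, List.count_reverse, List.count_nil] at f1 f2 f3 f4 f5 f6 ⊢
      omega
    · rw [nd_cnt]; intro v
      specialize f1 v; specialize f2 v; specialize f3 v; specialize f4 v; specialize f5 v
      specialize f6 v
      simp only [List.count_append, cnt_cons, List.count_reverse, List.count_nil] at f1 f2 f3 f4 f5 f6 ⊢
      omega
  · obtain ⟨c, K, rfl⟩ := head_dec hU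
    refine exT hL (α := A3) (β := A4) (c := c)
      (γ := K ++ (A1 ++ (W ++ A2)))
      (α' := B0 ++ (W ++ B3))
      (β' := B4)
      (γ' := K ++ B2) (ρ := ρ) (x := x) (y := y)
      ?_ ?_ ?_ ?_ hρ.ch ?_ ?_
    · simpa using c1
    · simp only [List.length_append, List.length_cons, List.length_reverse, List.length_nil] at l1 ⊢
      omega
    · simpa using c2
    · simp only [List.length_append, List.length_cons, List.length_reverse, List.length_nil] at l2 ⊢
      omega
    · rw [nd_cnt]; intro v
      specialize f1 v; specialize f2 v; specialize f3 v; specialize f4 v; specialize f5 v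
      specialize f6 v
      simp only [List.count_append, cnt_cons, List.count_reverse, List.count_nil] at f1 f2 f3 f4 f5 f6 ⊢
      omega
    · rw [nd_cnt]; intro v
      specialize f1 v; specialize f2 v; specialize f3 v; specialize f4 v; specialize f5 v
      specialize f6 v
      simp only [List.count_append, cnt_cons, List.count_reverse, List.count_nil] at f1 f2 f3 f4 f5 f6 ⊢
      omega
  · refine exS hL (α := A3) (β := A4 ++ (U ++ (A1 ++ (W ++ A2))))
      (α' := B4.reverse)
      (β' := B3.reverse ++ (U.reverse ++ (B1.reverse ++ (W.reverse ++ B0.reverse)))) (ρ := ρ) (x := x) (y := y) ?_ ?_ ?_ ?_ hρ.ch ?_ ?_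
    · simpa using c1
    · simp only [List.length_append, List.length_cons, List.length_reverse, List.length_nil] at l1 ⊢
      omega
    · simpa using c2r
    · simp only [List.length_append, List.length_cons, List.length_reverse, List.length_nil] at l2 ⊢
      omega
    · rw [nd_cnt]; intro v
      specialize f1 v; specialize f2 v; specialize f3 v; specialize f4 v; specialize f5 v
      specialize f6 v
      simp only [List.count_append, cnt_cons, List.count_reverse, List.count_nil] at f1 f2 f3 f4 f5 f6 ⊢
      omega
    · rw [nd_cnt]; intro v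
      specialize f1 v; specialize f2 v; specialize f3 v; specialize f4 v; specialize f5 v
      specialize f6 v
      simp only [List.count_append, cnt_cons, List.count_reverse, List.count_nil] at f1 f2 f3 f4 f5 f6 ⊢
      omega
  · obtain ⟨c, K, rfl⟩ := head_dec hW
    refine exT hL (α := A0 ++ (U ++ A3)) (β := A4) (c := c)
      (γ := K ++ A2)
      (α' := B3)
      (β' := B4)
      (γ' := K ++ (B1 ++ (U ++ B2))) (ρ := ρ) (x := x) (y := y)
      ?_ ?_ ?_ ?_ hρ.ch ?_ ?_
    · simpa using c1
    · simp only [List.length_append, List.length_cons, List.length_reverse, List.length_nil] at l1 ⊢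
      omega
    · simpa using c2
    · simp only [List.length_append, List.length_cons, List.length_reverse, List.length_nil] at l2 ⊢
      omega
    · rw [nd_cnt]; intro v
      specialize f1 v; specialize f2 v; specialize f3 v; specialize f4 v; specialize f5 v
      specialize f6 v
      simp only [List.count_append, cnt_cons, List.count_reverse, List.count_nil] at f1 f2 f3 f4 f5 f6 ⊢
      omega
    · rw [nd_cnt]; intro v
      specialize f1 v; specialize f2 v; specialize f3 v; specialize f4 v; specialize f5 v
      specialize f6 v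
      simp only [List.count_append, cnt_cons, List.count_reverse, List.count_nil] at f1 f2 f3 f4 f5 f6 ⊢
      omega
  · refine exS hL (α := A0 ++ (U ++ A3)) (β := A4 ++ (W ++ A2))
      (α' := B2.reverse ++ (U.reverse ++ B4.reverse))
      (β' := B3.reverse ++ (W.reverse ++ B0.reverse)) (ρ := ρ) (x := x) (y := y) ?_ ?_ ?_ ?_ hρ.ch ?_ ?_
    · simpa using c1
    · simp only [List.length_append, List.length_cons, List.length_reverse, List.length_nil] at l1 ⊢
      omega
    · simpa using c2r
    · simp only [List.length_append, List.length_cons, List.length_reverse, List.length_nil] at l2 ⊢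
      omega
    · rw [nd_cnt]; intro v
      specialize f1 v; specialize f2 v; specialize f3 v; specialize f4 v; specialize f5 v
      specialize f6 v
      simp only [List.count_append, cnt_cons, List.count_reverse, List.count_nil] at f1 f2 f3 f4 f5 f6 ⊢
      omega
    · rw [nd_cnt]; intro v
      specialize f1 v; specialize f2 v; specialize f3 v; specialize f4 v; specialize f5 v
      specialize f6 v
      simp only [List.count_append, cnt_cons, List.count_reverse, List.count_nil] at f1 f2 f3 f4 f5 f6 ⊢
      omega
  · obtain ⟨K, c, rfl⟩ := last_dec hU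
    refine exT hL (α := A2.reverse ++ (W.reverse ++ A4.reverse)) (β := A3.reverse) (c := c)
      (γ := K.reverse ++ A0.reverse)
      (α' := B4.reverse)
      (β' := B3.reverse)
      (γ' := K.reverse ++ (B1.reverse ++ (W.reverse ++ B0.reverse))) (ρ := ρ) (x := x) (y := y)
      ?_ ?_ ?_ ?_ hρ.ch ?_ ?_
    · simpa using c1r
    · simp only [List.length_append, List.length_cons, List.length_reverse, List.length_nil] at l1 ⊢
      omega
    · simpa using c2r
    · simp only [List.length_append, List.length_cons, List.length_reverse, List.length_nil] at l2 ⊢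
      omega
    · rw [nd_cnt]; intro v
      specialize f1 v; specialize f2 v; specialize f3 v; specialize f4 v; specialize f5 v
      specialize f6 v
      simp only [List.count_append, cnt_cons, List.count_reverse, List.count_nil] at f1 f2 f3 f4 f5 f6 ⊢
      omega
    · rw [nd_cnt]; intro v
      specialize f1 v; specialize f2 v; specialize f3 v; specialize f4 v; specialize f5 v
      specialize f6 v
      simp only [List.count_append, cnt_cons, List.count_reverse, List.count_nil] at f1 f2 f3 f4 f5 f6 ⊢
      omega
  · refine exS hL (α := A0 ++ (U ++ (A1 ++ (W ++ A3)))) (β := A4)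
      (α' := B2.reverse ++ (U.reverse ++ (B1.reverse ++ (W.reverse ++ B4.reverse))))
      (β' := B3.reverse) (ρ := ρ) (x := x) (y := y) ?_ ?_ ?_ ?_ hρ.ch ?_ ?_
    · simpa using c1
    · simp only [List.length_append, List.length_cons, List.length_reverse, List.length_nil] at l1 ⊢
      omega
    · simpa using c2r
    · simp only [List.length_append, List.length_cons, List.length_reverse, List.length_nil] at l2 ⊢
      omega
    · rw [nd_cnt]; intro v
      specialize f1 v; specialize f2 v; specialize f3 v; specialize f4 v; specialize f5 v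
      specialize f6 v
      simp only [List.count_append, cnt_cons, List.count_reverse, List.count_nil] at f1 f2 f3 f4 f5 f6 ⊢
      omega
    · rw [nd_cnt]; intro v
      specialize f1 v; specialize f2 v; specialize f3 v; specialize f4 v; specialize f5 v
      specialize f6 v
      simp only [List.count_append, cnt_cons, List.count_reverse, List.count_nil] at f1 f2 f3 f4 f5 f6 ⊢
      omega
  · obtain ⟨K, c, rfl⟩ := last_dec hW
    refine exT hL (α := A4.reverse) (β := A3.reverse) (c := c)
      (γ := K.reverse ++ (A1.reverse ++ (U.reverse ++ A0.reverse)))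
      (α' := B2.reverse ++ (U.reverse ++ B4.reverse))
      (β' := B3.reverse)
      (γ' := K.reverse ++ B0.reverse) (ρ := ρ) (x := x) (y := y)
      ?_ ?_ ?_ ?_ hρ.ch ?_ ?_
    · simpa using c1r
    · simp only [List.length_append, List.length_cons, List.length_reverse, List.length_nil] at l1 ⊢
      omega
    · simpa using c2r
    · simp only [List.length_append, List.length_cons, List.length_reverse, List.length_nil] at l2 ⊢
      omega
    · rw [nd_cnt]; intro v
      specialize f1 v; specialize f2 v; specialize f3 v; specialize f4 v; specialize f5 v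
      specialize f6 v
      simp only [List.count_append, cnt_cons, List.count_reverse, List.count_nil] at f1 f2 f3 f4 f5 f6 ⊢
      omega
    · rw [nd_cnt]; intro v
      specialize f1 v; specialize f2 v; specialize f3 v; specialize f4 v; specialize f5 v
      specialize f6 v
      simp only [List.count_append, cnt_cons, List.count_reverse, List.count_nil] at f1 f2 f3 f4 f5 f6 ⊢
      omega
  · refine exS hL (α := A0 ++ (U ++ (A1 ++ (W ++ A3)))) (β := A4)
      (α' := B0 ++ (W ++ (B1 ++ (U ++ B3))))
      (β' := B4) (ρ := ρ) (x := x) (y := y) ?_ ?_ ?_ ?_ hρ.ch ?_ ?_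
    · simpa using c1
    · simp only [List.length_append, List.length_cons, List.length_reverse, List.length_nil] at l1 ⊢
      omega
    · simpa using c2
    · simp only [List.length_append, List.length_cons, List.length_reverse, List.length_nil] at l2 ⊢
      omega
    · rw [nd_cnt]; intro v
      specialize f1 v; specialize f2 v; specialize f3 v; specialize f4 v; specialize f5 v
      specialize f6 v
      simp only [List.count_append, cnt_cons, List.count_reverse, List.count_nil] at f1 f2 f3 f4 f5 f6 ⊢
      omega
    · rw [nd_cnt]; intro v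
      specialize f1 v; specialize f2 v; specialize f3 v; specialize f4 v; specialize f5 v
      specialize f6 v
      simp only [List.count_append, cnt_cons, List.count_reverse, List.count_nil] at f1 f2 f3 f4 f5 f6 ⊢
      omega

end Pool.Agent.Helper72.LPth
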