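import Pool.Agent.Helper72.LPth.Aligned

/-!
The exchange argument: a path which meets both sides of a gap contradicts maximality.
-/

namespace Pool.Agent.Helper72.LPth

open Pool.Agent.Helper67.LPath

variable {V : Type} {G : SimpleGraph V} {ι : Type}

open Classical in
lemma key {N : ℕ} {P : ι → ℕ → V} (hP : Fam G N P) (hL : LongN G N) {p q r : ℕ → V}
    (hp : Full N P p) (hq : Full N P q) (hr : PathF G N r)
    {s t a b : ℕ} (hcut : ∀ l, l < N → p l = q l → ∀ u, s < u → u < t → r u ≠ p l)
    (hst : s < t) (ht : t < N) (ha : a < N) (hb : b < N)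
    (hsa : r s = p a) (htb : r t = q b) (hab : SG p q a b)
    (hmin : ∀ u v a' b', s ≤ u → u ≤ t → s ≤ v → v ≤ t → (u - v) + (v - u) < t - s →
      a' < N → b' < N → r u = p a' → r v = q b' → SG p q a' b' → False) : False := by
  set c : ℕ → Prop := fun l => ∃ l', l' < N ∧ SG p q l l' ∧ ∃ u, s < u ∧ u < t ∧ r u = p l'
    with hc
  have hcc : ∀ l l', SG p q l l' → (c l ↔ c l') := by
    intro l l' h
    constructor
    · rintro ⟨k, hk, h1, h2⟩
      exact ⟨k, hk, h.symm.trans h1, h2⟩
    · rintro ⟨k, hk, h1, h2⟩
      exact ⟨k, hk, h.trans h1, h2⟩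
  obtain ⟨cA, hcA⟩ : ∃ cA : ℕ → Prop, ∀ l, cA l ↔ (¬ SG p q l a ∧ c l) :=
    ⟨_, fun _ => Iff.rfl⟩
  obtain ⟨cB, hcB⟩ : ∃ cB : ℕ → Prop, ∀ l, cB l ↔ (SG p q l a ∨ c l) :=
    ⟨_, fun _ => Iff.rfl⟩
  set TA : ℕ → V := fun l => if cA l then q l else p l with hTA
  set TB : ℕ → V := fun l => if cB l then q l else p l with hTB
  have hfA : Full N P TA := by
    refine full_mix hp hq cA ?_
    intro l hl e e'
    have h := SG.succ e e'
    rw [hcA, hcA, hcc _ _ h]
    constructor
    · rintro ⟨h1, h2⟩; exact ⟨fun h3 => h1 (h.trans h3), h2⟩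
    · rintro ⟨h1, h2⟩; exact ⟨fun h3 => h1 (h.symm.trans h3), h2⟩
  have hfB : Full N P TB := by
    refine full_mix hp hq cB ?_
    intro l hl e e'
    have h := SG.succ e e'
    rw [hcB, hcB, hcc _ _ h]
    constructor
    · rintro (h1 | h1)
      · exact Or.inl (h.symm.trans h1)
      · exact Or.inr h1
    · rintro (h1 | h1)
      · exact Or.inl (h.trans h1)
      · exact Or.inr h1
  -- the interior of the piece of `r` avoids both
  have havA : ∀ u, s < u → u < t → ∀ l, l < N → TA l ≠ r u := by
    intro u hsu hut l hl e
    by_cases h : ¬ SG p q l a ∧ c l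
    · have e1 : q l = r u := by
        have : TA l = q l := by simp only [hTA, (hcA l).2 h, if_true]
        rw [← this, e]
      obtain ⟨l', hl', h1, u', h2, h3, h4⟩ := h.2
      exact hmin u' u l' l (by omega) (by omega) (by omega) (by omega) (by omega) hl' hl h4
        e1.symm h1.symm
    · have e1 : p l = r u := by
        have : TA l = p l := by
          have h' : ¬ cA l := fun h1 => h ((hcA l).1 h1)
          simp only [hTA, h', if_false]
        rw [← this, e]
      by_cases e2 : p l = q l
      · exact hcut l hl e2 u hsu hut e1.symm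
      · have hcl : c l := ⟨l, hl, SG.self e2, u, hsu, hut, e1.symm⟩
        have hla : SG p q l a := by
          by_contra h3; exact h ⟨h3, hcl⟩
        exact hmin u t l b (by omega) (by omega) (by omega) (by omega) (by omega) hl hb
          e1.symm htb (hla.trans hab)
  have havB : ∀ u, s < u → u < t → ∀ l, l < N → TB l ≠ r u := by
    intro u hsu hut l hl e
    by_cases h : SG p q l a ∨ c l
    · have e1 : q l = r u := by
        have : TB l = q l := by simp only [hTB, (hcB l).2 h, if_true]
        rw [← this, e]
      rcases h with h | h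
      · exact hmin s u a l (by omega) (by omega) (by omega) (by omega) (by omega) ha hl hsa
          e1.symm h.symm
      · obtain ⟨l', hl', h1, u', h2, h3, h4⟩ := h
        exact hmin u' u l' l (by omega) (by omega) (by omega) (by omega) (by omega) hl' hl h4
          e1.symm h1.symm
    · have e1 : p l = r u := by
        have : TB l = p l := by
          have h' : ¬ cB l := fun h1 => h ((hcB l).1 h1)
          simp only [hTB, h', if_false]
        rw [← this, e]
      by_cases e2 : p l = q l
      · exact hcut l hl e2 u hsu hut e1.symm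
      · exact h (Or.inr ⟨l, hl, SG.self e2, u, hsu, hut, e1.symm⟩)
  have hTA' : ∀ l, SG p q l a → TA l = p l := by
    intro l h
    have h' : ¬ cA l := fun h1 => ((hcA l).1 h1).1 h
    simp only [hTA, h', if_false]
  have hTB' : ∀ l, SG p q l a → TB l = q l := by
    intro l h
    have h' : cB l := (hcB l).2 (Or.inl h)
    simp only [hTB, h', if_true]
  have hTAa : TA a = p a := hTA' a (SG.self hab.left)
  have hTBb : TB b = q b := hTB' b hab.symm
  have hdiff : ∀ l, SG p q l a → TA l ≠ TB l := by
    intro l h
    rw [hTA' l h, hTB' l h]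
    exact h.left
  have hbet : ∀ l, min a b ≤ l → l ≤ max a b → SG p q l a := by
    intro l h1 h2 k h3 h4
    exact hab k (by omega) (by omega)
  -- the two splices
  have hmem : ∀ v, v ∈ seg r s (t - s + 1) ↔
      v = r s ∨ v = r t ∨ ∃ u, s < u ∧ u < t ∧ v = r u := by
    intro v
    rw [mem_seg]
    constructor
    · rintro ⟨u, h1, h2, h3⟩
      by_cases e : u = s
      · left; rw [← h3, e]
      · by_cases e' : u = t
        · right; left; rw [← h3, e']
        · right; right; exact ⟨u, by omega, by omega, h3.symm⟩
    · rintro (h | h | ⟨u, h1, h2, h3⟩)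
      · exact ⟨s, by omega, by omega, h.symm⟩
      · exact ⟨t, by omega, by omega, h.symm⟩
      · exact ⟨u, by omega, by omega, h3.symm⟩
  have X1 : a + (seg r s (t - s + 1)).length ≤ b + 1 := by
    refine splice hP hL hfA hfB ha hb (seg_nodup hr (by omega)) (seg_chain hr (by omega))
      ?_ ?_ ?_ ?_ ?_
    · rw [head?_seg, hsa, hTAa]
    · rw [getLast?_seg, hTBb, ← htb]
      congr 2; omega
    · intro l hl hmem'
      rcases (hmem _).1 hmem' with h | h | ⟨u, h1, h2, h3⟩
      · rw [hsa, ← hTAa] at h
        have := Full.lev hP hfA hfA (by omega) ha h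
        omega
      · rw [htb, ← hTBb] at h
        have := Full.lev hP hfA hfB (by omega) hb h
        subst this
        exact hdiff l (hbet l (by omega) (by omega)) h
      · exact havA u h1 h2 l (by omega) h3
    · intro l hl hlN hmem'
      rcases (hmem _).1 hmem' with h | h | ⟨u, h1, h2, h3⟩
      · rw [hsa, ← hTAa] at h
        have := Full.lev hP hfB hfA (by omega) ha h
        subst this
        exact hdiff l (SG.self hab.left) h.symm
      · rw [htb, ← hTBb] at h
        have := Full.lev hP hfB hfB (by omega) hb h
        omega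
      · exact havB u h1 h2 l (by omega) h3
    · intro l h1 h2
      exact hdiff l (hbet l (by omega) (by omega))
  have X2 : b + (seg r s (t - s + 1)).reverse.length ≤ a + 1 := by
    refine splice hP hL hfB hfA hb ha (List.nodup_reverse.2 (seg_nodup hr (by omega)))
      (isChain_rev (seg_chain hr (by omega))) ?_ ?_ ?_ ?_ ?_
    · rw [List.head?_reverse, getLast?_seg, hTBb, ← htb]
      congr 2; omega
    · rw [List.getLast?_reverse, head?_seg, hsa, hTAa]
    · intro l hl hmem'
      rw [List.mem_reverse] at hmem'
      rcases (hmem _).1 hmem' with h | h | ⟨u, h1, h2, h3⟩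
      · rw [hsa, ← hTAa] at h
        have := Full.lev hP hfB hfA (by omega) ha h
        subst this
        exact hdiff l (SG.self hab.left) h.symm
      · rw [htb, ← hTBb] at h
        have := Full.lev hP hfB hfB (by omega) hb h
        omega
      · exact havB u h1 h2 l (by omega) h3
    · intro l hl hlN hmem'
      rw [List.mem_reverse] at hmem'
      rcases (hmem _).1 hmem' with h | h | ⟨u, h1, h2, h3⟩
      · rw [hsa, ← hTAa] at h
        have := Full.lev hP hfA hfA (by omega) ha h
        omega
      · rw [htb, ← hTBb] at h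
        have := Full.lev hP hfA hfB (by omega) hb h
        subst this
        exact hdiff l (hbet l (by omega) (by omega)) h
      · exact havA u h1 h2 l (by omega) h3
    · intro l h1 h2
      exact (hdiff l (hbet l (by omega) (by omega))).symm
  simp only [List.length_reverse, length_seg] at X1 X2
  omega

end Pool.Agent.Helper72.LPth
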