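import Pool.Agent.Helper72.LPth.Base

/-!
Two longest paths of a connected graph have a common vertex.
-/

namespace Pool.Agent.Helper72.LPth

open Pool.Agent.Helper67.LPath

variable {V : Type} {G : SimpleGraph V}

lemma isChain_rev {l : List V} (h : l.IsChain G.Adj) : l.reverse.IsChain G.Adj := by
  rw [List.isChain_reverse]
  exact h.imp (fun a b hab => hab.symm)

/-- the longer half of a path, ending at a given vertex -/
lemma exists_half {N : ℕ} {p : ℕ → V} (hp : PathF G N p) {s : ℕ} (hs : s < N) :
    ∃ l : List V, l.Nodup ∧ l.IsChain G.Adj ∧ l.getLast? = some (p s) ∧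
      (∀ v ∈ l, ∃ i, i < N ∧ p i = v) ∧ N + 1 ≤ 2 * l.length := by
  by_cases h : N + 1 ≤ 2 * (s + 1)
  · refine ⟨seg p 0 (s + 1), seg_nodup hp (by omega), seg_chain hp (by omega), ?_, ?_, ?_⟩
    · rw [getLast?_seg]; simp
    · intro v hv
      obtain ⟨i, -, h2, h3⟩ := mem_seg.1 hv
      exact ⟨i, by omega, h3⟩
    · simpa using h
  · refine ⟨(seg p s (N - s)).reverse, ?_, ?_, ?_, ?_, ?_⟩
    · rw [List.nodup_reverse]; exact seg_nodup hp (by omega)
    · exact isChain_rev (seg_chain hp (by omega))
    · rw [List.getLast?_reverse]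
      obtain ⟨m, hm⟩ : ∃ m, N - s = m + 1 := ⟨N - s - 1, by omega⟩
      rw [hm, head?_seg]
    · intro v hv
      rw [List.mem_reverse] at hv
      obtain ⟨i, h1, h2, h3⟩ := mem_seg.1 hv
      exact ⟨i, by omega, h3⟩
    · simp only [List.length_reverse, length_seg]; omega

/-- Two longest paths of a connected graph have a common vertex. -/
lemma exists_common {N : ℕ} (hG : G.Connected) (hL : LongN G N) (hN : 0 < N) {p q : ℕ → V}
    (hp : PathF G N p) (hq : PathF G N q) :
    ∃ s t, s < N ∧ t < N ∧ p s = q t := by
  classical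
  by_contra hcon
  push Not at hcon
  -- a pair of vertices at minimal distance
  have hex : ∃ d : ℕ, ∃ s t, s < N ∧ t < N ∧ G.dist (p s) (q t) = d :=
    ⟨_, 0, 0, hN, hN, rfl⟩
  obtain ⟨s, t, hs, ht, hd⟩ := Nat.find_spec hex
  have hmin : ∀ s' t', s' < N → t' < N → Nat.find hex ≤ G.dist (p s') (q t') :=
    fun s' t' h1 h2 => Nat.find_min' hex ⟨s', t', h1, h2, rfl⟩
  generalize Nat.find hex = d at hd hmin
  obtain ⟨w, hw⟩ := hG.exists_walk_length_eq_dist (p s) (q t)
  have hwp : w.IsPath := SimpleGraph.Walk.isPath_of_length_eq_dist w hw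
  rw [hd] at hw
  have hd0 : 0 < d := by
    rcases Nat.eq_zero_or_pos d with h | h
    · exfalso
      rw [h] at hw
      exact hcon s t hs ht (SimpleGraph.Walk.eq_of_length_eq_zero hw)
    · exact h
  -- the interior of the connecting path
  have hmidp : ∀ i, 0 < i → i < d → ∀ j, j < N → w.getVert i ≠ p j := by
    intro i hi hid j hj hij
    have h1 := hmin j t hj ht
    rw [← hij] at h1
    have h2 := SimpleGraph.dist_le (w.drop i)
    rw [SimpleGraph.Walk.drop_length, hw] at h2
    omega
  have hmidq : ∀ i, 0 < i → i < d → ∀ j, j < N → w.getVert i ≠ q j := by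
    intro i hi hid j hj hij
    have h1 := hmin s j hs hj
    rw [← hij] at h1
    have h2 := SimpleGraph.dist_le (w.take i)
    rw [SimpleGraph.Walk.take_length, hw] at h2
    omega
  have hwF : PathF G (d + 1) w.getVert := by
    refine ⟨?_, ?_⟩
    · intro i hi
      exact w.adj_getVert_succ (by omega)
    · intro i j hi hj hij
      exact hwp.getVert_injOn (by simp only [Set.mem_ofPred_eq]; omega)
        (by simp only [Set.mem_ofPred_eq]; omega) hij
  obtain ⟨l1, hnd1, hch1, hl1, hm1, hc1⟩ := exists_half hp hs
  obtain ⟨l2, hnd2, hch2, hl2, hm2, hc2⟩ := exists_half hq ht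
  have hlen := hL (l1 ++ (seg w.getVert 1 (d - 1) ++ l2.reverse)) ⟨?_, ?_, ?_⟩
  · simp only [List.length_append, length_seg, List.length_reverse] at hlen
    omega
  · intro h
    have := congrArg List.length h
    simp only [List.length_append, length_seg, List.length_reverse, List.length_nil] at this
    omega
  · rw [List.nodup_append, List.nodup_append]
    refine ⟨hnd1, ⟨seg_nodup hwF (by omega), List.nodup_reverse.2 hnd2, ?_⟩, ?_⟩
    · rintro a ha b hb rfl
      rw [List.mem_reverse] at hb
      obtain ⟨i, h1, h2, h3⟩ := mem_seg.1 ha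
      obtain ⟨j, h4, h5⟩ := hm2 _ hb
      exact hmidq i (by omega) (by omega) j h4 (by rw [h3, h5])
    · rintro a ha b hb rfl
      rw [List.mem_append, List.mem_reverse] at hb
      obtain ⟨j, h4, h5⟩ := hm1 _ ha
      rcases hb with hb | hb
      · obtain ⟨i, h1, h2, h3⟩ := mem_seg.1 hb
        exact hmidp i (by omega) (by omega) j h4 (by rw [h3, h5])
      · obtain ⟨k, h6, h7⟩ := hm2 _ hb
        exact hcon j k h4 h6 (by rw [h5, h7])
  · refine List.IsChain.append hch1 (List.IsChain.append (seg_chain hwF (by omega))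
      (isChain_rev hch2) ?_) ?_
    · intro x hx y hy
      obtain ⟨h1, h2⟩ := mem_getLast?_seg hx
      rw [List.head?_reverse, hl2] at hy
      simp only [Option.mem_def, Option.some.injEq] at hy
      rw [h2, ← hy]
      have h3 := hwF.adj (1 + (d - 1) - 1) (by omega)
      have h4 : 1 + (d - 1) - 1 + 1 = w.length := by omega
      rw [h4, SimpleGraph.Walk.getVert_length] at h3
      exact h3
    · intro x hx y hy
      rw [hl1] at hx
      simp only [Option.mem_def, Option.some.injEq] at hx
      rw [← hx]
      rcases Nat.lt_or_ge 1 d with h | h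
      · obtain ⟨m, hm⟩ : ∃ m, d - 1 = m + 1 := ⟨d - 2, by omega⟩
        rw [hm, List.head?_append, head?_seg] at hy
        simp only [Option.some_or, Option.mem_def, Option.some.injEq] at hy
        rw [← hy]
        have h3 := hwF.adj 0 (by omega)
        rwa [SimpleGraph.Walk.getVert_zero] at h3
      · have h1 : d = 1 := by omega
        have h2 : d - 1 = 0 := by omega
        rw [h2] at hy
        have h5 : seg w.getVert 1 0 = [] := by simp [seg]
        rw [h5, List.nil_append, List.head?_reverse, hl2] at hy
        simp only [Option.mem_def, Option.some.injEq] at hy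
        rw [← hy]
        have h3 := hwF.adj 0 (by omega)
        have h4 : 0 + 1 = w.length := by omega
        rw [h4, SimpleGraph.Walk.getVert_zero, SimpleGraph.Walk.getVert_length] at h3
        exact h3

end Pool.Agent.Helper72.LPth
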