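import Pool.Agent.Helper72.LPth.Dec

/-!
Three longest paths: two of them meet in the same order up to the reversal of one block or
up to a rotation.
-/

set_option linter.unusedSimpArgs false

namespace Pool.Agent.Helper72.LPth

open Pool.Agent.Helper67.LPath

variable {V : Type} {G : SimpleGraph V} [DecidableEq V]

lemma cnt_filter_mem {l P : List V} {v : V} (hv : v ∈ P) :
    (l.filter (· ∈ P)).count v = l.count v :=
  List.count_filter (by simpa using hv)

lemma cnt_filter_notMem {l P : List V} {v : V} (hv : v ∉ P) :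
    (l.filter (· ∈ P)).count v = 0 := by
  rw [List.count_eq_zero, List.mem_filter]
  rintro ⟨-, h⟩
  exact hv (by simpa using h)

lemma filter_self {l P : List V} (h : ∀ v ∈ l, v ∈ P) : l.filter (· ∈ P) = l :=
  List.filter_eq_self.2 fun v hv => by simpa using h v hv

lemma filter_congr' {l P Q : List V} (h : ∀ v ∈ l, (v ∈ P ↔ v ∈ Q)) :
    l.filter (· ∈ P) = l.filter (· ∈ Q) :=
  List.filter_congr fun v hv => by
    have h1 := h v hv
    by_cases hP : v ∈ P
    · have hQ := h1.1 hP
      simp [hP, hQ]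
    · have hQ : v ∉ Q := fun h2 => hP (h1.2 h2)
      simp [hP, hQ]

lemma cnt_pos {l : List V} {v : V} : 0 < l.count v ↔ v ∈ l := List.count_pos_iff

/-- one block is reversed -/
theorem class1 {N : ℕ} (hG : G.Connected) (hN : 0 < N) (hL : LongN G N) {P Q R : List V}
    (hP : LP G N P) (hQ : LP G N Q) (hR : LP G N R) {X Y Z : List V} (hY : Y ≠ [])
    (h1 : P.filter (· ∈ Q) = X ++ (Y ++ Z)) (h2 : Q.filter (· ∈ P) = X ++ (Y.reverse ++ Z)) :
    ∃ v ∈ R, v ∈ P ∧ v ∈ Q := by
  by_contra hcon
  push Not at hcon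
  -- decomposition of P
  obtain ⟨M1, P1, eP, fM1, fP1, gM1⟩ := front h1
  obtain ⟨P1', M3, eP1, fP1', fM3, gM3⟩ := back fP1
  obtain ⟨E, A', eE, fE, fA', gE⟩ := front (W := []) (by rw [fP1', List.append_nil])
  obtain ⟨A, M2, eM2, fA, fM2, gM2⟩ := back (W := []) (by rw [fE, List.nil_append])
  have gM2' : M2.getLast? = Y.getLast? := by
    have hne : M2 ≠ [] := by
      rintro rfl
      exact hY (by simpa using fM2.symm)
    rw [← gE, eM2, List.getLast?_append_of_ne_nil _ hne]
  -- decomposition of Q
  obtain ⟨N1, Q1, eQ, fN1, fQ1, gN1⟩ := front h2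
  obtain ⟨Q1', N3, eQ1, fQ1', fN3, gN3⟩ := back fQ1
  obtain ⟨E', B', eE', fE', fB', gE'⟩ := front (W := []) (by rw [fQ1', List.append_nil])
  obtain ⟨B, K2, eK2, fB, fK2, gK2⟩ := back (W := []) (by rw [fE', List.nil_append])
  have gK2' : K2.getLast? = Y.reverse.getLast? := by
    have hne : K2 ≠ [] := by
      rintro rfl
      exact hY (by simpa using fK2.symm)
    rw [← gE', eK2, List.getLast?_append_of_ne_nil _ hne]
  rw [List.getLast?_reverse] at gK2'
  rw [List.head?_reverse] at gK2
  have eP' : P = M1 ++ (A ++ (M2 ++ (A' ++ M3))) := by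
    rw [eP, eP1, eE, eM2]; simp
  have eQ' : Q = N1 ++ (B ++ (K2 ++ (B' ++ N3))) := by
    rw [eQ, eQ1, eE', eK2]; simp
  clear eP eP1 eE eM2 eQ eQ1 eE' eK2 fP1 fP1' fE gE fQ1 fQ1' fE' gE' h1 h2
  have hPc : ∀ v, P.count v = M1.count v + (A.count v + (M2.count v + (A'.count v + M3.count v))) := by
    intro v; rw [eP']; simp only [List.count_append]
  have hQc : ∀ v, Q.count v = N1.count v + (B.count v + (K2.count v + (B'.count v + N3.count v))) := by
    intro v; rw [eQ']; simp only [List.count_append]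
  have ndP := nd_cnt.1 hP.nd
  have ndQ := nd_cnt.1 hQ.nd
  -- the basic facts on the blocks
  have hF : ∀ v, P.count v = 0 ∨ Q.count v = 0 ∨ (M1.count v = N1.count v ∧
      M2.count v = K2.count v ∧ M3.count v = N3.count v ∧ A.count v = 0 ∧ A'.count v = 0 ∧
      B.count v = 0 ∧ B'.count v = 0) := by
    intro v
    by_cases hvP : v ∈ P
    · by_cases hvQ : v ∈ Q
      · right; right
        refine ⟨?_, ?_, ?_, ?_, ?_, ?_, ?_⟩
        · rw [← cnt_filter_mem (l := M1) hvQ, fM1, ← cnt_filter_mem (l := N1) hvP, fN1]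
        · rw [← cnt_filter_mem (l := M2) hvQ, fM2, ← cnt_filter_mem (l := K2) hvP, fK2,
            List.count_reverse]
        · rw [← cnt_filter_mem (l := M3) hvQ, fM3, ← cnt_filter_mem (l := N3) hvP, fN3]
        · rw [← cnt_filter_mem (l := A) hvQ, fA, List.count_nil]
        · rw [← cnt_filter_mem (l := A') hvQ, fA', List.count_nil]
        · rw [← cnt_filter_mem (l := B) hvP, fB, List.count_nil]
        · rw [← cnt_filter_mem (l := B') hvP, fB', List.count_nil]
      · right; left; exact cnt_zero.2 hvQ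
    · left; exact cnt_zero.2 hvP
  -- the exchanged paths
  have cP := hP.ch
  have cQ := hQ.ch
  rw [eP'] at cP
  rw [eQ'] at cQ
  have cM1 := (List.isChain_append.1 cP).1
  have cM2 := (List.isChain_append.1 (List.isChain_append.1 (List.isChain_append.1 cP).2.1).2.1).1
  have cM3 := (List.isChain_append.1 (List.isChain_append.1 (List.isChain_append.1
    (List.isChain_append.1 cP).2.1).2.1).2.1).2.1
  have cN1 := (List.isChain_append.1 cQ).1
  have cK2 := (List.isChain_append.1 (List.isChain_append.1 (List.isChain_append.1 cQ).2.1).2.1).1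
  have cN3 := (List.isChain_append.1 (List.isChain_append.1 (List.isChain_append.1
    (List.isChain_append.1 cQ).2.1).2.1).2.1).2.1
  have nP2 : (N1 ++ (A ++ (K2.reverse ++ (A' ++ N3)))).Nodup := by
    rw [nd_cnt]; intro v
    have e1 := hF v; have e2 := hPc v; have e3 := hQc v; have e4 := ndP v; have e5 := ndQ v
    simp only [List.count_append, List.count_reverse]
    omega
  have nQ2 : (M1 ++ (B ++ (M2.reverse ++ (B' ++ M3)))).Nodup := by
    rw [nd_cnt]; intro v
    have e1 := hF v; have e2 := hPc v; have e3 := hQc v; have e4 := ndP v; have e5 := ndQ v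
    simp only [List.count_append, List.count_reverse]
    omega
  have hK2h : K2.reverse.head? = M2.head? := by rw [List.head?_reverse, gK2', gM2]
  have hK2l : K2.reverse.getLast? = M2.getLast? := by rw [List.getLast?_reverse, gK2, gM2']
  have cP2 : (N1 ++ (A ++ (K2.reverse ++ (A' ++ N3)))).IsChain G.Adj := by
    have s1 := chain_rep (a := []) (m := M1) (m' := N1) (c := A ++ (M2 ++ (A' ++ M3)))
      (by simpa using cP) cN1 (Or.inl rfl) (Or.inr (gN1.trans gM1.symm))
    have s2 := chain_rep (a := N1 ++ A) (m := M2) (m' := K2.reverse) (c := A' ++ M3)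
      (by simpa using s1) (isChain_rev cK2) (Or.inr hK2h) (Or.inr hK2l)
    have s3 := chain_rep (a := N1 ++ (A ++ (K2.reverse ++ A'))) (m := M3) (m' := N3) (c := [])
      (by simpa using s2) cN3 (Or.inr (gN3.trans gM3.symm)) (Or.inl rfl)
    simpa using s3
  have hM2h : M2.reverse.head? = K2.head? := by rw [List.head?_reverse, gM2', gK2]
  have hM2l : M2.reverse.getLast? = K2.getLast? := by rw [List.getLast?_reverse, gM2, gK2']
  have cQ2 : (M1 ++ (B ++ (M2.reverse ++ (B' ++ M3)))).IsChain G.Adj := by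
    have s1 := chain_rep (a := []) (m := N1) (m' := M1) (c := B ++ (K2 ++ (B' ++ N3)))
      (by simpa using cQ) cM1 (Or.inl rfl) (Or.inr (gM1.trans gN1.symm))
    have s2 := chain_rep (a := M1 ++ B) (m := K2) (m' := M2.reverse) (c := B' ++ N3)
      (by simpa using s1) (isChain_rev cM2) (Or.inr hM2h) (Or.inr hM2l)
    have s3 := chain_rep (a := M1 ++ (B ++ (M2.reverse ++ B'))) (m := N3) (m' := M3) (c := [])
      (by simpa using s2) cM3 (Or.inr (gM3.trans gN3.symm)) (Or.inl rfl)
    simpa using s3
  have lP := hP.len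
  have lQ := hQ.len
  rw [eP'] at lP
  rw [eQ'] at lQ
  have lP2 := hL.lenLe _ nP2 cP2
  have lQ2 := hL.lenLe _ nQ2 cQ2
  simp only [List.length_append, List.length_reverse] at lP lQ lP2 lQ2
  have hP2 : LP G N (N1 ++ (A ++ (K2.reverse ++ (A' ++ N3)))) := ⟨nP2, cP2, by
    simp only [List.length_append, List.length_reverse]; omega⟩
  have hQ2 : LP G N (M1 ++ (B ++ (M2.reverse ++ (B' ++ M3)))) := ⟨nQ2, cQ2, by
    simp only [List.length_append, List.length_reverse]; omega⟩
  obtain ⟨P2, eP2⟩ : ∃ P2, P2 = N1 ++ (A ++ (K2.reverse ++ (A' ++ N3))) := ⟨_, rfl⟩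
  obtain ⟨Q2, eQ2⟩ : ∃ Q2, Q2 = M1 ++ (B ++ (M2.reverse ++ (B' ++ M3))) := ⟨_, rfl⟩
  rw [← eP2] at hP2
  rw [← eQ2] at hQ2
  have hP2c : ∀ v, P2.count v = N1.count v + (A.count v + (K2.count v + (A'.count v + N3.count v))) := by
    intro v; rw [eP2]; simp only [List.count_append, List.count_reverse]
  have hQ2c : ∀ v, Q2.count v = M1.count v + (B.count v + (M2.count v + (B'.count v + M3.count v))) := by
    intro v; rw [eQ2]; simp only [List.count_append, List.count_reverse]
  -- the common vertices of P and P2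
  have fP : P.filter (· ∈ P2) = P2.filter (· ∈ P) := by
    have key : ∀ l : List V, (∀ v, l.count v ≤ M1.count v + (M2.count v + M3.count v)) →
        l.filter (· ∈ P2) = l.filter (· ∈ Q) := by
      intro l hl
      refine filter_congr' fun v hv => ?_
      rw [← cnt_pos, ← cnt_pos]
      have e0 := hl v; have e01 := cnt_pos.2 hv
      have e1 := hF v; have e2 := hPc v; have e3 := hQc v; have e4 := ndP v; have e5 := ndQ v
      have e6 := hP2c v
      omega
    have k1 := key M1 fun v => by omega
    have k2 := key M2 fun v => by omega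
    have k3 := key M3 fun v => by omega
    have a1 : A.filter (· ∈ P2) = A := filter_self fun v hv => by
      rw [← cnt_pos] at hv ⊢; have := hP2c v; omega
    have a2 : A'.filter (· ∈ P2) = A' := filter_self fun v hv => by
      rw [← cnt_pos] at hv ⊢; have := hP2c v; omega
    have a3 : A.filter (· ∈ P) = A := filter_self fun v hv => by
      rw [← cnt_pos] at hv ⊢; have := hPc v; omega
    have a4 : A'.filter (· ∈ P) = A' := filter_self fun v hv => by
      rw [← cnt_pos] at hv ⊢; have := hPc v; omega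
    have l1 : P.filter (· ∈ P2) = X ++ (A ++ (Y ++ (A' ++ Z))) := by
      conv_lhs => rw [eP']
      simp only [List.filter_append]
      rw [k1, k2, k3, a1, a2, fM1, fM2, fM3]
    have l2 : P2.filter (· ∈ P) = X ++ (A ++ (Y ++ (A' ++ Z))) := by
      conv_lhs => rw [eP2]
      simp only [List.filter_append, List.filter_reverse]
      rw [a3, a4, fN1, fK2, fN3, List.reverse_reverse]
    rw [l1, l2]
  have fQ : Q.filter (· ∈ Q2) = Q2.filter (· ∈ Q) := by
    have key : ∀ l : List V, (∀ v, l.count v ≤ N1.count v + (K2.count v + N3.count v)) →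
        l.filter (· ∈ Q2) = l.filter (· ∈ P) := by
      intro l hl
      refine filter_congr' fun v hv => ?_
      rw [← cnt_pos, ← cnt_pos]
      have e0 := hl v; have e01 := cnt_pos.2 hv
      have e1 := hF v; have e2 := hPc v; have e3 := hQc v; have e4 := ndP v; have e5 := ndQ v
      have e6 := hQ2c v
      omega
    have k1 := key N1 fun v => by omega
    have k2 := key K2 fun v => by omega
    have k3 := key N3 fun v => by omega
    have a1 : B.filter (· ∈ Q2) = B := filter_self fun v hv => by
      rw [← cnt_pos] at hv ⊢; have := hQ2c v; omega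
    have a2 : B'.filter (· ∈ Q2) = B' := filter_self fun v hv => by
      rw [← cnt_pos] at hv ⊢; have := hQ2c v; omega
    have a3 : B.filter (· ∈ Q) = B := filter_self fun v hv => by
      rw [← cnt_pos] at hv ⊢; have := hQc v; omega
    have a4 : B'.filter (· ∈ Q) = B' := filter_self fun v hv => by
      rw [← cnt_pos] at hv ⊢; have := hQc v; omega
    have l1 : Q.filter (· ∈ Q2) = X ++ (B ++ (Y.reverse ++ (B' ++ Z))) := by
      conv_lhs => rw [eQ']
      simp only [List.filter_append]
      rw [k1, k2, k3, a1, a2, fN1, fK2, fN3]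
    have l2 : Q2.filter (· ∈ Q) = X ++ (B ++ (Y.reverse ++ (B' ++ Z))) := by
      conv_lhs => rw [eQ2]
      simp only [List.filter_append, List.filter_reverse]
      rw [a3, a4, fM1, fM2, fM3]
    rw [l1, l2]
  -- lengths of the blocks
  have halP := fun (i j : ℕ) (v : V) (h1 : P[i]? = some v) (h2 : P2[j]? = some v) =>
    aligned_eq hL.lenLe hP hP2 fP h1 h2
  have len1 : M1.length = N1.length := len_block (a := []) (a' := []) halP (by simpa using eP')
    (by simpa using eP2) (gM1.trans gN1.symm) rfl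
  have len2 : M2.length = K2.reverse.length := len_block (a := M1 ++ A) (a' := N1 ++ A) halP
    (by simpa using eP') (by simpa using eP2) hK2l.symm (by simp [len1])
  have len2' : M2.length = K2.length := by rw [len2, List.length_reverse]
  have len3 : M3.length = N3.length := by
    have h3 := hP2.len
    rw [eP2] at h3
    simp only [List.length_append, List.length_reverse] at h3
    omega
  obtain ⟨T, x, ρ, y, hT, hMx, hx, hy, hρc, hρn, hρd⟩ := engine (PA := A ++ A') (PB := B ++ B')
    hG hN hL hP hP2 fP hQ hQ2 fQ hR hcon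
    (by
      intro v h1 h2 h3
      rw [← cnt_pos] at h1 h2 ⊢
      rw [← cnt_zero] at h3
      have e1 := hF v; have e2 := hPc v; have e3 := hQc v; have e4 := ndP v; have e5 := ndQ v
      have e6 := hP2c v
      rw [List.count_append]
      omega)
    (by
      intro v h1 h2 h3
      rw [← cnt_pos] at h1 h2 ⊢
      rw [← cnt_zero] at h3
      have e1 := hF v; have e2 := hPc v; have e3 := hQc v; have e4 := ndP v; have e5 := ndQ v
      have e6 := hQ2c v
      rw [List.count_append]
      omega)
    (by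
      intro v h1 h2
      rw [← cnt_pos, List.count_append] at h1 h2
      have e1 := hF v; have e2 := hPc v; have e3 := hQc v
      omega)
  -- the blocks of the mixture
  rw [eP', eP2] at hMx
  obtain ⟨T1, U1, rfl, hx1, hMx⟩ := hMx.split len1
  obtain ⟨TA, U2, rfl, hxA, hMx⟩ := hMx.split rfl
  obtain ⟨T2, U3, rfl, hx2, hMx⟩ := hMx.split len2
  obtain ⟨TA', T3, rfl, hxA', hx3⟩ := hMx.split rfl
  have tA := hxA.eq
  have tA' := hxA'.eq
  subst tA tA'
  have m1 : ∀ v, M1.count v = 0 → N1.count v = 0 → T1.count v = 0 := by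
    intro v h1 h2
    rw [cnt_zero] at h1 h2 ⊢
    intro h3
    rcases hx1.mem h3 with h | h
    · exact h1 h
    · exact h2 h
  have m2 : ∀ v, M2.count v = 0 → K2.count v = 0 → T2.count v = 0 := by
    intro v h1 h2
    rw [cnt_zero] at h1 h2 ⊢
    intro h3
    rcases hx2.mem h3 with h | h
    · exact h1 h
    · exact h2 (List.mem_reverse.1 h)
  have m3 : ∀ v, M3.count v = 0 → N3.count v = 0 → T3.count v = 0 := by
    intro v h1 h2
    rw [cnt_zero] at h1 h2 ⊢
    intro h3
    rcases hx3.mem h3 with h | h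
    · exact h1 h
    · exact h2 h
  have ndT := nd_cnt.1 hT.nd
  have cT := hT.ch
  have cT1 := (List.isChain_append.1 cT).1
  have cT2 := (List.isChain_append.1 (List.isChain_append.1 (List.isChain_append.1 cT).2.1).2.1).1
  have cT3 := (List.isChain_append.1 (List.isChain_append.1 (List.isChain_append.1
    (List.isChain_append.1 cT).2.1).2.1).2.1).2.1
  have hhM : M2.head? = K2.reverse.head? := hK2h.symm
  have g1 : T1.getLast? = N1.getLast? := by
    rw [hx1.getLast? len1 (gM1.trans gN1.symm), gM1, gN1]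
  have g2 : T2.reverse.head? = K2.head? := by
    rw [List.head?_reverse, hx2.getLast? len2 hK2l.symm, gM2', gK2]
  have g2' : T2.reverse.getLast? = K2.getLast? := by
    rw [List.getLast?_reverse, hx2.head? hhM, gM2, gK2']
  have g3 : T3.head? = N3.head? := by
    rw [hx3.head? (gM3.trans gN3.symm), gM3, gN3]
  have hTQ : LP G N (T1 ++ (B ++ (T2.reverse ++ (B' ++ T3)))) := by
    refine ⟨?_, ?_, ?_⟩
    · rw [nd_cnt]; intro v
      have e1 := hF v; have e2 := hPc v; have e3 := hQc v; have e4 := ndP v; have e5 := ndQ v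
      have e6 := ndT v; have e7 := m1 v; have e8 := m2 v; have e9 := m3 v
      simp only [List.count_append, List.count_reverse] at e6 ⊢
      omega
    · have s1 := chain_rep (a := []) (m := N1) (m' := T1) (c := B ++ (K2 ++ (B' ++ N3)))
        (by simpa using cQ) cT1 (Or.inl rfl) (Or.inr g1)
      have s2 := chain_rep (a := T1 ++ B) (m := K2) (m' := T2.reverse) (c := B' ++ N3)
        (by simpa using s1) (isChain_rev cT2) (Or.inr g2) (Or.inr g2')
      have s3 := chain_rep (a := T1 ++ (B ++ (T2.reverse ++ B'))) (m := N3) (m' := T3) (c := [])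
        (by simpa using s2) cT3 (Or.inr g3) (Or.inl rfl)
      simpa using s3
    · have h1 := hx1.length len1
      have h2 := hx2.length len2
      have h3 := hx3.length len3
      simp only [List.length_append, List.length_reverse]
      omega
  have hT2 : T2 ≠ [] := by
    intro h
    have h1 := hx2.length len2
    rw [h] at h1
    have h2 : M2 = [] := List.length_eq_zero_iff.1 h1.symm
    rw [h2] at fM2
    exact hY (by simpa using fM2.symm)
  refine core1 hL.lenLe hT hTQ hT2 ⟨hρc, hρn, fun v hv => (hρd v hv).1, ?_⟩ ?_ hx hy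
  · intro v hv h
    obtain ⟨h1, -, h3⟩ := hρd v hv
    rw [← cnt_pos] at h
    rw [← cnt_zero] at h1 h3
    simp only [List.count_append, List.count_reverse] at h h1 h3
    omega
  · intro v h1 h2
    rw [← cnt_pos, List.count_append] at h1 h2
    have e1 := hF v; have e2 := hPc v; have e3 := hQc v
    omega

omit [DecidableEq V] in
lemma block {p : V → Bool} {L X : List V} (h : L.filter p = X) (hX : X ≠ []) :
    ∃ a m c, L = a ++ (m ++ c) ∧ a.filter p = [] ∧ m.filter p = X ∧ c.filter p = [] ∧
      m.head? = X.head? ∧ m.getLast? = X.getLast? := by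
  obtain ⟨E, c, eE, fE, fc, gE⟩ := front (W := []) (by rw [h, List.append_nil])
  obtain ⟨a, m, em, fa, fm, gm⟩ := back (W := []) (by rw [fE, List.nil_append])
  have hne : m ≠ [] := by
    rintro rfl
    exact hX (by simpa using fm.symm)
  refine ⟨a, m, c, by rw [eE, em]; simp, fa, fm, fc, gm, ?_⟩
  rw [← gE, em, List.getLast?_append_of_ne_nil _ hne]

/-- the common vertices are rotated -/
theorem class2 {N : ℕ} (hG : G.Connected) (hN : 0 < N) (hL : LongN G N) {P Q R : List V}
    (hP : LP G N P) (hQ : LP G N Q) (hR : LP G N R) {X Y : List V} (hX : X ≠ []) (hY : Y ≠ [])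
    (h1 : P.filter (· ∈ Q) = X ++ Y) (h2 : Q.filter (· ∈ P) = Y ++ X) :
    ∃ v ∈ R, v ∈ P ∧ v ∈ Q := by
  by_contra hcon
  push Not at hcon
  obtain ⟨La, Lb, eL, fLa, fLb⟩ := List.filter_eq_append_iff.1 h1
  obtain ⟨A0, M1, A1, eM1, fA0, fM1, fA1, gM1, gM1'⟩ := block fLa hX
  obtain ⟨A2, M2, A', eM2, fA2, fM2, fA', gM2, gM2'⟩ := block fLb hY
  obtain ⟨Lc, Ld, eL', fLc, fLd⟩ := List.filter_eq_append_iff.1 h2
  obtain ⟨B0, K2, B1, eK2, fB0, fK2, fB1, gK2, gK2'⟩ := block fLc hY
  obtain ⟨B2, N1, B', eN1, fB2, fN1, fB', gN1, gN1'⟩ := block fLd hX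
  obtain ⟨A, eA⟩ : ∃ A, A = A1 ++ A2 := ⟨_, rfl⟩
  obtain ⟨B, eB⟩ : ∃ B, B = B1 ++ B2 := ⟨_, rfl⟩
  have eP' : P = A0 ++ (M1 ++ (A ++ (M2 ++ A'))) := by
    rw [eL, eM1, eM2, eA]; simp
  have eQ' : Q = B0 ++ (K2 ++ (B ++ (N1 ++ B'))) := by
    rw [eL', eK2, eN1, eB]; simp
  have fA : A.filter (· ∈ Q) = [] := by rw [eA, List.filter_append, fA1, fA2]; rfl
  have fB : B.filter (· ∈ P) = [] := by rw [eB, List.filter_append, fB1, fB2]; rfl
  clear eL eM1 eM2 eA eL' eK2 eN1 eB fA1 fA2 fB1 fB2 fLa fLb fLc fLd h1 h2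
  have hPc : ∀ v, P.count v = A0.count v + (M1.count v + (A.count v + (M2.count v + A'.count v))) := by
    intro v; rw [eP']; simp only [List.count_append]
  have hQc : ∀ v, Q.count v = B0.count v + (K2.count v + (B.count v + (N1.count v + B'.count v))) := by
    intro v; rw [eQ']; simp only [List.count_append]
  have ndP := nd_cnt.1 hP.nd
  have ndQ := nd_cnt.1 hQ.nd
  have hF : ∀ v, P.count v = 0 ∨ Q.count v = 0 ∨ (M1.count v = N1.count v ∧
      M2.count v = K2.count v ∧ A0.count v = 0 ∧ A.count v = 0 ∧ A'.count v = 0 ∧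
      B0.count v = 0 ∧ B.count v = 0 ∧ B'.count v = 0) := by
    intro v
    by_cases hvP : v ∈ P
    · by_cases hvQ : v ∈ Q
      · right; right
        refine ⟨?_, ?_, ?_, ?_, ?_, ?_, ?_, ?_⟩
        · rw [← cnt_filter_mem (l := M1) hvQ, fM1, ← cnt_filter_mem (l := N1) hvP, fN1]
        · rw [← cnt_filter_mem (l := M2) hvQ, fM2, ← cnt_filter_mem (l := K2) hvP, fK2]
        · rw [← cnt_filter_mem (l := A0) hvQ, fA0, List.count_nil]
        · rw [← cnt_filter_mem (l := A) hvQ, fA, List.count_nil]
        · rw [← cnt_filter_mem (l := A') hvQ, fA', List.count_nil]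
        · rw [← cnt_filter_mem (l := B0) hvP, fB0, List.count_nil]
        · rw [← cnt_filter_mem (l := B) hvP, fB, List.count_nil]
        · rw [← cnt_filter_mem (l := B') hvP, fB', List.count_nil]
      · right; left; exact cnt_zero.2 hvQ
    · left; exact cnt_zero.2 hvP
  -- the exchanged paths
  have cP := hP.ch
  have cQ := hQ.ch
  rw [eP'] at cP
  rw [eQ'] at cQ
  have cM1 := (List.isChain_append.1 (List.isChain_append.1 cP).2.1).1
  have cM2 := (List.isChain_append.1 (List.isChain_append.1 (List.isChain_append.1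
    (List.isChain_append.1 cP).2.1).2.1).2.1).1
  have cK2 := (List.isChain_append.1 (List.isChain_append.1 cQ).2.1).1
  have cN1 := (List.isChain_append.1 (List.isChain_append.1 (List.isChain_append.1
    (List.isChain_append.1 cQ).2.1).2.1).2.1).1
  have nP2 : (A0 ++ (N1 ++ (A ++ (K2 ++ A')))).Nodup := by
    rw [nd_cnt]; intro v
    have e1 := hF v; have e2 := hPc v; have e3 := hQc v; have e4 := ndP v; have e5 := ndQ v
    simp only [List.count_append, List.count_reverse]
    omega
  have nQ2 : (B0 ++ (M2 ++ (B ++ (M1 ++ B')))).Nodup := by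
    rw [nd_cnt]; intro v
    have e1 := hF v; have e2 := hPc v; have e3 := hQc v; have e4 := ndP v; have e5 := ndQ v
    simp only [List.count_append, List.count_reverse]
    omega
  have cP2 : (A0 ++ (N1 ++ (A ++ (K2 ++ A')))).IsChain G.Adj := by
    have s1 := chain_rep (a := A0) (m := M1) (m' := N1) (c := A ++ (M2 ++ A'))
      (by simpa using cP) cN1 (Or.inr (gN1.trans gM1.symm)) (Or.inr (gN1'.trans gM1'.symm))
    have s2 := chain_rep (a := A0 ++ (N1 ++ A)) (m := M2) (m' := K2) (c := A')
      (by simpa using s1) cK2 (Or.inr (gK2.trans gM2.symm)) (Or.inr (gK2'.trans gM2'.symm))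
    simpa using s2
  have cQ2 : (B0 ++ (M2 ++ (B ++ (M1 ++ B')))).IsChain G.Adj := by
    have s1 := chain_rep (a := B0) (m := K2) (m' := M2) (c := B ++ (N1 ++ B'))
      (by simpa using cQ) cM2 (Or.inr (gM2.trans gK2.symm)) (Or.inr (gM2'.trans gK2'.symm))
    have s2 := chain_rep (a := B0 ++ (M2 ++ B)) (m := N1) (m' := M1) (c := B')
      (by simpa using s1) cM1 (Or.inr (gM1.trans gN1.symm)) (Or.inr (gM1'.trans gN1'.symm))
    simpa using s2
  have lP := hP.len
  have lQ := hQ.len
  rw [eP'] at lP
  rw [eQ'] at lQ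
  have lP2 := hL.lenLe _ nP2 cP2
  have lQ2 := hL.lenLe _ nQ2 cQ2
  simp only [List.length_append] at lP lQ lP2 lQ2
  have hP2 : LP G N (A0 ++ (N1 ++ (A ++ (K2 ++ A')))) := ⟨nP2, cP2, by
    simp only [List.length_append]; omega⟩
  have hQ2 : LP G N (B0 ++ (M2 ++ (B ++ (M1 ++ B')))) := ⟨nQ2, cQ2, by
    simp only [List.length_append]; omega⟩
  obtain ⟨P2, eP2⟩ : ∃ P2, P2 = A0 ++ (N1 ++ (A ++ (K2 ++ A'))) := ⟨_, rfl⟩
  obtain ⟨Q2, eQ2⟩ : ∃ Q2, Q2 = B0 ++ (M2 ++ (B ++ (M1 ++ B'))) := ⟨_, rfl⟩
  rw [← eP2] at hP2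
  rw [← eQ2] at hQ2
  have hP2c : ∀ v, P2.count v = A0.count v + (N1.count v + (A.count v + (K2.count v + A'.count v))) := by
    intro v; rw [eP2]; simp only [List.count_append]
  have hQ2c : ∀ v, Q2.count v = B0.count v + (M2.count v + (B.count v + (M1.count v + B'.count v))) := by
    intro v; rw [eQ2]; simp only [List.count_append]
  -- the common vertices of P and P2
  have fP : P.filter (· ∈ P2) = P2.filter (· ∈ P) := by
    have key : ∀ l : List V, (∀ v, l.count v ≤ M1.count v + M2.count v) →
        l.filter (· ∈ P2) = l.filter (· ∈ Q) := by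
      intro l hl
      refine filter_congr' fun v hv => ?_
      rw [← cnt_pos, ← cnt_pos]
      have e0 := hl v; have e01 := cnt_pos.2 hv
      have e1 := hF v; have e2 := hPc v; have e3 := hQc v; have e4 := ndP v; have e5 := ndQ v
      have e6 := hP2c v
      omega
    have k1 := key M1 fun v => by omega
    have k2 := key M2 fun v => by omega
    have a0 : A0.filter (· ∈ P2) = A0 := filter_self fun v hv => by
      rw [← cnt_pos] at hv ⊢; have := hP2c v; omega
    have a1 : A.filter (· ∈ P2) = A := filter_self fun v hv => by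
      rw [← cnt_pos] at hv ⊢; have := hP2c v; omega
    have a2 : A'.filter (· ∈ P2) = A' := filter_self fun v hv => by
      rw [← cnt_pos] at hv ⊢; have := hP2c v; omega
    have b0 : A0.filter (· ∈ P) = A0 := filter_self fun v hv => by
      rw [← cnt_pos] at hv ⊢; have := hPc v; omega
    have a3 : A.filter (· ∈ P) = A := filter_self fun v hv => by
      rw [← cnt_pos] at hv ⊢; have := hPc v; omega
    have a4 : A'.filter (· ∈ P) = A' := filter_self fun v hv => by
      rw [← cnt_pos] at hv ⊢; have := hPc v; omega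
    have l1 : P.filter (· ∈ P2) = A0 ++ (X ++ (A ++ (Y ++ A'))) := by
      conv_lhs => rw [eP']
      simp only [List.filter_append]
      rw [k1, k2, a0, a1, a2, fM1, fM2]
    have l2 : P2.filter (· ∈ P) = A0 ++ (X ++ (A ++ (Y ++ A'))) := by
      conv_lhs => rw [eP2]
      simp only [List.filter_append]
      rw [b0, a3, a4, fN1, fK2]
    rw [l1, l2]
  have fQ : Q.filter (· ∈ Q2) = Q2.filter (· ∈ Q) := by
    have key : ∀ l : List V, (∀ v, l.count v ≤ N1.count v + K2.count v) →
        l.filter (· ∈ Q2) = l.filter (· ∈ P) := by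
      intro l hl
      refine filter_congr' fun v hv => ?_
      rw [← cnt_pos, ← cnt_pos]
      have e0 := hl v; have e01 := cnt_pos.2 hv
      have e1 := hF v; have e2 := hPc v; have e3 := hQc v; have e4 := ndP v; have e5 := ndQ v
      have e6 := hQ2c v
      omega
    have k1 := key N1 fun v => by omega
    have k2 := key K2 fun v => by omega
    have a0 : B0.filter (· ∈ Q2) = B0 := filter_self fun v hv => by
      rw [← cnt_pos] at hv ⊢; have := hQ2c v; omega
    have a1 : B.filter (· ∈ Q2) = B := filter_self fun v hv => by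
      rw [← cnt_pos] at hv ⊢; have := hQ2c v; omega
    have a2 : B'.filter (· ∈ Q2) = B' := filter_self fun v hv => by
      rw [← cnt_pos] at hv ⊢; have := hQ2c v; omega
    have b0 : B0.filter (· ∈ Q) = B0 := filter_self fun v hv => by
      rw [← cnt_pos] at hv ⊢; have := hQc v; omega
    have a3 : B.filter (· ∈ Q) = B := filter_self fun v hv => by
      rw [← cnt_pos] at hv ⊢; have := hQc v; omega
    have a4 : B'.filter (· ∈ Q) = B' := filter_self fun v hv => by
      rw [← cnt_pos] at hv ⊢; have := hQc v; omega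
    have l1 : Q.filter (· ∈ Q2) = B0 ++ (Y ++ (B ++ (X ++ B'))) := by
      conv_lhs => rw [eQ']
      simp only [List.filter_append]
      rw [k1, k2, a0, a1, a2, fN1, fK2]
    have l2 : Q2.filter (· ∈ Q) = B0 ++ (Y ++ (B ++ (X ++ B'))) := by
      conv_lhs => rw [eQ2]
      simp only [List.filter_append]
      rw [b0, a3, a4, fM1, fM2]
    rw [l1, l2]
  -- lengths of the blocks
  have halP := fun (i j : ℕ) (v : V) (h1 : P[i]? = some v) (h2 : P2[j]? = some v) =>
    aligned_eq hL.lenLe hP hP2 fP h1 h2
  have len1 : M1.length = N1.length := len_block (a := A0) (a' := A0) halP (by simpa using eP')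
    (by simpa using eP2) (gM1'.trans gN1'.symm) rfl
  have len2 : M2.length = K2.length := len_block (a := A0 ++ (M1 ++ A)) (a' := A0 ++ (N1 ++ A))
    halP (by simpa using eP') (by simpa using eP2) (gM2'.trans gK2'.symm) (by simp [len1])
  obtain ⟨T, x, ρ, y, hT, hMx, hx, hy, hρc, hρn, hρd⟩ := engine (PA := A0 ++ (A ++ A'))
    (PB := B0 ++ (B ++ B')) hG hN hL hP hP2 fP hQ hQ2 fQ hR hcon
    (by
      intro v h1 h2 h3
      rw [← cnt_pos] at h1 h2 ⊢
      rw [← cnt_zero] at h3
      have e1 := hF v; have e2 := hPc v; have e3 := hQc v; have e4 := ndP v; have e5 := ndQ v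
      have e6 := hP2c v
      simp only [List.count_append]
      omega)
    (by
      intro v h1 h2 h3
      rw [← cnt_pos] at h1 h2 ⊢
      rw [← cnt_zero] at h3
      have e1 := hF v; have e2 := hPc v; have e3 := hQc v; have e4 := ndP v; have e5 := ndQ v
      have e6 := hQ2c v
      simp only [List.count_append]
      omega)
    (by
      intro v h1 h2
      rw [← cnt_pos] at h1 h2
      simp only [List.count_append] at h1 h2
      have e1 := hF v; have e2 := hPc v; have e3 := hQc v
      omega)
  -- the blocks of the mixture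
  rw [eP', eP2] at hMx
  obtain ⟨TA0, U0, rfl, hxA0, hMx⟩ := hMx.split rfl
  obtain ⟨T1, U1, rfl, hx1, hMx⟩ := hMx.split len1
  obtain ⟨TA, U2, rfl, hxA, hMx⟩ := hMx.split rfl
  obtain ⟨T2, TA', rfl, hx2, hxA'⟩ := hMx.split len2
  have tA0 := hxA0.eq
  have tA := hxA.eq
  have tA' := hxA'.eq
  subst tA0 tA tA'
  have m1 : ∀ v, M1.count v = 0 → N1.count v = 0 → T1.count v = 0 := by
    intro v h1 h2
    rw [cnt_zero] at h1 h2 ⊢
    intro h3
    rcases hx1.mem h3 with h | h
    · exact h1 h
    · exact h2 h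
  have m2 : ∀ v, M2.count v = 0 → K2.count v = 0 → T2.count v = 0 := by
    intro v h1 h2
    rw [cnt_zero] at h1 h2 ⊢
    intro h3
    rcases hx2.mem h3 with h | h
    · exact h1 h
    · exact h2 h
  have ndT := nd_cnt.1 hT.nd
  have cT := hT.ch
  have cT1 := (List.isChain_append.1 (List.isChain_append.1 cT).2.1).1
  have cT2 := (List.isChain_append.1 (List.isChain_append.1 (List.isChain_append.1
    (List.isChain_append.1 cT).2.1).2.1).2.1).1
  have g1 : T1.head? = N1.head? := by rw [hx1.head? (gM1.trans gN1.symm), gM1, gN1]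
  have g1' : T1.getLast? = N1.getLast? := by
    rw [hx1.getLast? len1 (gM1'.trans gN1'.symm), gM1', gN1']
  have g2 : T2.head? = K2.head? := by rw [hx2.head? (gM2.trans gK2.symm), gM2, gK2]
  have g2' : T2.getLast? = K2.getLast? := by
    rw [hx2.getLast? len2 (gM2'.trans gK2'.symm), gM2', gK2']
  have hTQ : LP G N (B0 ++ (T2 ++ (B ++ (T1 ++ B')))) := by
    refine ⟨?_, ?_, ?_⟩
    · rw [nd_cnt]; intro v
      have e1 := hF v; have e2 := hPc v; have e3 := hQc v; have e4 := ndP v; have e5 := ndQ v
      have e6 := ndT v; have e7 := m1 v; have e8 := m2 v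
      simp only [List.count_append] at e6 ⊢
      omega
    · have s1 := chain_rep (a := B0) (m := K2) (m' := T2) (c := B ++ (N1 ++ B'))
        (by simpa using cQ) cT2 (Or.inr g2) (Or.inr g2')
      have s2 := chain_rep (a := B0 ++ (T2 ++ B)) (m := N1) (m' := T1) (c := B')
        (by simpa using s1) cT1 (Or.inr g1) (Or.inr g1')
      simpa using s2
    · have h1 := hx1.length len1
      have h2 := hx2.length len2
      simp only [List.length_append]
      omega
  have hT1 : T1 ≠ [] := by
    intro h
    have h1 := hx1.length len1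
    rw [h] at h1
    have h2 : M1 = [] := List.length_eq_zero_iff.1 h1.symm
    rw [h2] at fM1
    exact hX (by simpa using fM1.symm)
  have hT2 : T2 ≠ [] := by
    intro h
    have h1 := hx2.length len2
    rw [h] at h1
    have h2 : M2 = [] := List.length_eq_zero_iff.1 h1.symm
    rw [h2] at fM2
    exact hY (by simpa using fM2.symm)
  refine core2 hL.lenLe hT hTQ hT1 hT2 ⟨hρc, hρn, fun v hv => (hρd v hv).1, ?_⟩ ?_ hx hy
  · intro v hv h
    obtain ⟨h1, -, h3⟩ := hρd v hv
    rw [← cnt_pos] at h
    rw [← cnt_zero] at h1 h3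
    simp only [List.count_append] at h h1 h3
    omega
  · intro v h1 h2
    rw [← cnt_pos] at h1 h2
    simp only [List.count_append] at h1 h2
    have e1 := hF v; have e2 := hPc v; have e3 := hQc v
    omega

end Pool.Agent.Helper72.LPth
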