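import Pool.Agent.Helper72.LPth.Move

/-!
# Three longest paths, two of which meet in almost the same order: the proof

Proof of `Pool.Agent.Results.MP_fc92c5_co.OneMove.result`. The three definitions below are the
ones of that file, letter for letter.
-/

namespace Pool.Agent.Helper72.LPth.MoveProof

open Pool.Agent.Helper67.LPath Pool.Agent.Helper72.LPth

open Classical in
/-- the vertices of `P` which lie on `Q`, in the order of `P` -/
noncomputable def common {V : Type} (P Q : List V) : List V := P.filter (· ∈ Q)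

/-- `m` arises from `l` by the reversal of a block or by the interchange of an initial and
a final block -/
def Near {V : Type} (l m : List V) : Prop :=
  (∃ X Y Z, l = X ++ (Y ++ Z) ∧ m = X ++ (Y.reverse ++ Z)) ∨ ∃ X Y, l = X ++ Y ∧ m = Y ++ X

/-- all common vertices of `P` and `Q` lie on two subpaths `U`, `W`, which `P` and `Q`
traverse in any order and in any directions -/
def TwoPieces {V : Type} (P Q : List V) : Prop :=
  ∃ U W U' W' a b c a' b' c' : List V, P = a ++ (U ++ (b ++ (W ++ c))) ∧
    (Q = a' ++ (U' ++ (b' ++ (W' ++ c'))) ∨ Q = a' ++ (W' ++ (b' ++ (U' ++ c')))) ∧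
    (U' = U ∨ U' = U.reverse) ∧ (W' = W ∨ W' = W.reverse) ∧
    (∀ v, v ∈ a ∨ v ∈ b ∨ v ∈ c → v ∉ Q) ∧ ∀ v, v ∈ a' ∨ v ∈ b' ∨ v ∈ c' → v ∉ P

private theorem same {V : Type} {G : SimpleGraph V} {N : ℕ} (hG : G.Connected) (hN : 0 < N)
    (hL : LongN G N) {P Q R : List V} (hP : LP G N P) (hQ : LP G N Q) (hR : LP G N R)
    (h : common P Q = common Q P) : ∃ v, v ∈ P ∧ v ∈ Q ∧ v ∈ R := by
  classical
  have h' : P.filter (· ∈ Q) = Q.filter (· ∈ P) := by
    unfold common at h
    convert h
  obtain ⟨v, h1, h2, h3⟩ := exists_meet hG hN hL hP hQ h' hR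
  exact ⟨v, h2, h3, h1⟩

private theorem move {V : Type} {G : SimpleGraph V} {N : ℕ} (hG : G.Connected) (hN : 0 < N)
    (hL : LongN G N) {P Q R : List V} (hP : LP G N P) (hQ : LP G N Q) (hR : LP G N R)
    (h : Near (common P Q) (common Q P)) : ∃ v, v ∈ P ∧ v ∈ Q ∧ v ∈ R := by
  classical
  rcases h with ⟨X, Y, Z, h1, h2⟩ | ⟨X, Y, h1, h2⟩
  · by_cases hY : Y = []
    · subst hY
      exact same hG hN hL hP hQ hR (by rw [h1, h2]; rfl)
    · have h1' : P.filter (· ∈ Q) = X ++ (Y ++ Z) := by rw [← h1]; unfold common; congr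
      have h2' : Q.filter (· ∈ P) = X ++ (Y.reverse ++ Z) := by
        rw [← h2]; unfold common; congr
      obtain ⟨v, h3, h4, h5⟩ := class1 hG hN hL hP hQ hR hY h1' h2'
      exact ⟨v, h4, h5, h3⟩
  · by_cases hX : X = []
    · subst hX
      exact same hG hN hL hP hQ hR (by rw [h1, h2]; simp)
    by_cases hY : Y = []
    · subst hY
      exact same hG hN hL hP hQ hR (by rw [h1, h2]; simp)
    have h1' : P.filter (· ∈ Q) = X ++ Y := by rw [← h1]; unfold common; congr
    have h2' : Q.filter (· ∈ P) = Y ++ X := by rw [← h2]; unfold common; congr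
    obtain ⟨v, h3, h4, h5⟩ := class2 hG hN hL hP hQ hR hX hY h1' h2'
    exact ⟨v, h4, h5, h3⟩

private theorem common_rev_right {V : Type} (P Q : List V) :
    common P Q.reverse = common P Q := by
  unfold common
  exact List.filter_congr fun v _ => by simp

private theorem common_rev_left {V : Type} (P Q : List V) :
    common Q.reverse P = (common Q P).reverse := by
  unfold common
  rw [List.filter_reverse]

private theorem pieces {V : Type} {P Q : List V} (h : TwoPieces P Q) :
    Near (common P Q) (common Q P) ∨ Near (common P Q) (common Q P).reverse := by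
  classical
  obtain ⟨U, W, U', W', a, b, c, a', b', c', hP, hQ, hU, hW, h1, h2⟩ := h
  have hall : ∀ {l M : List V}, (∀ v ∈ l, v ∈ M) → common l M = l := by
    intro l M h3
    unfold common
    exact List.filter_eq_self.2 fun v hv => by simpa using h3 v hv
  have hnone : ∀ {l M : List V}, (∀ v ∈ l, v ∉ M) → common l M = [] := by
    intro l M h3
    unfold common
    exact List.filter_eq_nil_iff.2 fun v hv => by simpa using h3 v hv
  have happ : ∀ l m M : List V, common (l ++ m) M = common l M ++ common m M := by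
    intro l m M
    unfold common
    exact List.filter_append _ _
  have hUm : ∀ v, v ∈ U' ↔ v ∈ U := by
    intro v
    rcases hU with h3 | h3 <;> rw [h3]
    rw [List.mem_reverse]
  have hWm : ∀ v, v ∈ W' ↔ v ∈ W := by
    intro v
    rcases hW with h3 | h3 <;> rw [h3]
    rw [List.mem_reverse]
  have kU : common U Q = U := hall fun v hv => by
    rcases hQ with h3 | h3 <;> rw [h3] <;> simp only [List.mem_append, hUm, hv, true_or, or_true]
  have kW : common W Q = W := hall fun v hv => by
    rcases hQ with h3 | h3 <;> rw [h3] <;> simp only [List.mem_append, hWm, hv, true_or, or_true]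
  have kU' : common U' P = U' := hall fun v hv => by
    rw [hP]; simp only [List.mem_append, (hUm v).1 hv, true_or, or_true]
  have kW' : common W' P = W' := hall fun v hv => by
    rw [hP]; simp only [List.mem_append, (hWm v).1 hv, true_or, or_true]
  have ka : common a Q = [] := hnone fun v hv => h1 v (Or.inl hv)
  have kb : common b Q = [] := hnone fun v hv => h1 v (Or.inr (Or.inl hv))
  have kc : common c Q = [] := hnone fun v hv => h1 v (Or.inr (Or.inr hv))
  have ka' : common a' P = [] := hnone fun v hv => h2 v (Or.inl hv)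
  have kb' : common b' P = [] := hnone fun v hv => h2 v (Or.inr (Or.inl hv))
  have kc' : common c' P = [] := hnone fun v hv => h2 v (Or.inr (Or.inr hv))
  have e1 : common P Q = U ++ W := by
    have : common P Q = common (a ++ (U ++ (b ++ (W ++ c)))) Q := by rw [← hP]
    rw [this, happ, happ, happ, happ, ka, kb, kc, kU, kW]
    simp
  have e2 : common Q P = U' ++ W' ∨ common Q P = W' ++ U' := by
    rcases hQ with h3 | h3
    · left
      have : common Q P = common (a' ++ (U' ++ (b' ++ (W' ++ c')))) P := by rw [← h3]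
      rw [this, happ, happ, happ, happ, ka', kb', kc', kU', kW']
      simp
    · right
      have : common Q P = common (a' ++ (W' ++ (b' ++ (U' ++ c')))) P := by rw [← h3]
      rw [this, happ, happ, happ, happ, ka', kb', kc', kU', kW']
      simp
  rw [e1]
  rcases e2 with e2 | e2 <;> rw [e2] <;> rcases hU with hU | hU <;> rcases hW with hW | hW <;>
    rw [hU, hW]
  · exact Or.inl (Or.inl ⟨U, [], W, by simp, by simp⟩)
  · exact Or.inl (Or.inl ⟨U, W, [], by simp, by simp⟩)
  · exact Or.inl (Or.inl ⟨[], U, W, by simp, by simp⟩)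
  · exact Or.inr (Or.inr ⟨U, W, rfl, by simp⟩)
  · exact Or.inl (Or.inr ⟨U, W, rfl, rfl⟩)
  · exact Or.inr (Or.inl ⟨[], U, W, by simp, by simp⟩)
  · exact Or.inr (Or.inl ⟨U, W, [], by simp, by simp⟩)
  · exact Or.inr (Or.inl ⟨U, [], W, by simp, by simp⟩)

theorem main {V : Type} (G : SimpleGraph V) (hG : G.Connected) (P Q R : List V)
    (hP : IsLongest G P) (hQ : IsLongest G Q) (hR : IsLongest G R)
    (h : Near (common P Q) (common Q P) ∨ Near (common P Q) (common Q P).reverse ∨
      TwoPieces P Q) : ∃ v, v ∈ P ∧ v ∈ Q ∧ v ∈ R := by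
  have hlen : ∀ {P' : List V}, IsLongest G P' → LP G R.length P' := fun {P'} hP' =>
    ⟨hP'.1.2.1, hP'.1.2.2, le_antisymm (hR.2 _ hP'.1) (hP'.2 _ hR.1)⟩
  have hN : 0 < R.length := List.length_pos_iff.2 hR.1.1
  have hL : LongN G R.length := hR.2
  have h' : Near (common P Q) (common Q P) ∨ Near (common P Q) (common Q P).reverse := by
    rcases h with h | h | h
    · exact Or.inl h
    · exact Or.inr h
    · exact pieces h
  rcases h' with h | h
  · exact move hG hN hL (hlen hP) (hlen hQ) (hlen hR) h
  · obtain ⟨v, h1, h2, h3⟩ := move hG hN hL (Q := Q.reverse) (hlen hP) (hlen hQ).rev (hlen hR)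
      (by rw [common_rev_right, common_rev_left]; exact h)
    exact ⟨v, h1, List.mem_reverse.1 h2, h3⟩

end Pool.Agent.Helper72.LPth.MoveProof
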