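import Pool.Agent.Helper72.LPth.Cut

/-!
Two longest paths which meet in the same order: a third longest path contains a common
vertex, and mixtures of the two paths.
-/

namespace Pool.Agent.Helper72.LPth

open Pool.Agent.Helper67.LPath

variable {V : Type} {G : SimpleGraph V}

/-- all paths (and the empty list) have at most `N` vertices -/
def LenLe (G : SimpleGraph V) (N : ℕ) : Prop :=
  ∀ l : List V, l.Nodup → l.IsChain G.Adj → l.length ≤ N

lemma LongN.lenLe {N : ℕ} (h : LongN G N) : LenLe G N := by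
  intro l h1 h2
  by_cases h3 : l = []
  · rw [h3]; simp
  · exact h l ⟨h3, h1, h2⟩

/-- a longest path as a list with `N` elements -/
structure LP (G : SimpleGraph V) (N : ℕ) (l : List V) : Prop where
  nd : l.Nodup
  ch : l.IsChain G.Adj
  len : l.length = N

lemma LP.rev {N : ℕ} {l : List V} (h : LP G N l) : LP G N l.reverse :=
  ⟨List.nodup_reverse.2 h.nd, isChain_rev h.ch, by rw [List.length_reverse, h.len]⟩

lemma split_at {l : List V} {i : ℕ} {v : V} (h : l[i]? = some v) :
    l = l.take i ++ v :: l.drop (i + 1) ∧ (l.take i).length = i := by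
  obtain ⟨hi, hv⟩ := List.getElem?_eq_some_iff.1 h
  refine ⟨?_, by rw [List.length_take]; omega⟩
  rw [← hv, ← List.drop_eq_getElem_cons hi, List.take_append_drop]

variable [DecidableEq V]

lemma aligned_le {N : ℕ} (hL : LenLe G N) {P P2 : List V} (hP : LP G N P) (hP2 : LP G N P2)
    (hf : P.filter (· ∈ P2) = P2.filter (· ∈ P)) {i j : ℕ} {v : V} (hi : P[i]? = some v)
    (hj : P2[j]? = some v) : i ≤ j := by
  obtain ⟨e1, l1⟩ := split_at hi
  obtain ⟨e2, l2⟩ := split_at hj
  have hvP : v ∈ P := List.mem_of_getElem? hi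
  have hvP2 : v ∈ P2 := List.mem_of_getElem? hj
  have hn1 := hP.nd
  have hn2 := hP2.nd
  have hc1 := hP.ch
  have hc2 := hP2.ch
  rw [e1] at hn1 hc1
  rw [e2] at hn2 hc2
  have hlen1 := hP.len
  have hlen2 := hP2.len
  have hf1 : P.filter (· ∈ P2) = (P.take i).filter (· ∈ P2) ++ v ::
      (P.drop (i + 1)).filter (· ∈ P2) := by
    conv_lhs => rw [e1]
    rw [List.filter_append, List.filter_cons_of_pos (by simpa using hvP2)]
  have hf2 : P2.filter (· ∈ P) = (P2.take j).filter (· ∈ P) ++ v ::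
      (P2.drop (j + 1)).filter (· ∈ P) := by
    conv_lhs => rw [e2]
    rw [List.filter_append, List.filter_cons_of_pos (by simpa using hvP)]
  rw [hf1, hf2] at hf
  have hv1 : v ∉ (P.take i).filter (· ∈ P2) := by
    intro h
    have h' := (List.mem_filter.1 h).1
    exact (List.nodup_append.1 hn1).2.2 v h' v List.mem_cons_self rfl
  have hv2 : v ∉ (P.drop (i + 1)).filter (· ∈ P2) := by
    intro h
    have h' := (List.mem_filter.1 h).1
    exact (List.nodup_cons.1 (List.nodup_append.1 hn1).2.1).1 h'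
  have hf3 := (List.append_cons_inj_of_notMem hv1 hv2).1 hf
  have hlen := hL (P.take i ++ v :: P2.drop (j + 1)) ?_ ?_
  · rw [List.length_append, List.length_cons, List.length_drop, l1] at hlen
    have : j < P2.length := (List.getElem?_eq_some_iff.1 hj).1
    omega
  · rw [List.nodup_append]
    refine ⟨(List.nodup_append.1 hn1).1, (List.nodup_append.1 hn2).2.1, ?_⟩
    rintro x hx y hy rfl
    rw [List.mem_cons] at hy
    rcases hy with hy | hy
    · subst hy
      exact (List.nodup_append.1 hn1).2.2 x hx x List.mem_cons_self rfl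
    · have hxP2 : x ∈ P2 := List.mem_of_mem_drop hy
      have h1 : x ∈ (P.take i).filter (· ∈ P2) := List.mem_filter.2 ⟨hx, by simpa using hxP2⟩
      rw [hf3.1] at h1
      have h2 := (List.mem_filter.1 h1).1
      exact (List.nodup_append.1 hn2).2.2 x h2 x (List.mem_cons_of_mem _ hy) rfl
  · rw [List.isChain_split]
    exact ⟨(List.isChain_split.1 hc1).1, (List.isChain_split.1 hc2).2⟩

lemma aligned_eq {N : ℕ} (hL : LenLe G N) {P P2 : List V} (hP : LP G N P) (hP2 : LP G N P2)
    (hf : P.filter (· ∈ P2) = P2.filter (· ∈ P)) {i j : ℕ} {v : V} (hi : P[i]? = some v)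
    (hj : P2[j]? = some v) : i = j :=
  le_antisymm (aligned_le hL hP hP2 hf hi hj) (aligned_le hL hP2 hP hf.symm hj hi)

/-- two lists as functions -/
def duo (p q : ℕ → V) : Bool → ℕ → V := fun b => if b then q else p

omit [DecidableEq V] in
lemma exists_fun {N : ℕ} (hN : 0 < N) {l : List V} (h : LP G N l) :
    ∃ q : ℕ → V, PathF G N q ∧ ∀ t, t < N → l[t]? = some (q t) := by
  have h1 : IsPathL G l := ⟨by rintro rfl; have := h.len; simp at this; omega, h.nd, h.ch⟩
  have h2 := exists_pathF h1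
  rw [h.len] at h2
  exact h2

lemma duo_fam {N : ℕ} (hL : LenLe G N) {P P2 : List V} (hP : LP G N P) (hP2 : LP G N P2)
    (hf : P.filter (· ∈ P2) = P2.filter (· ∈ P)) {p q : ℕ → V} (hp : PathF G N p)
    (hq : PathF G N q) (hpP : ∀ t, t < N → P[t]? = some (p t))
    (hqP : ∀ t, t < N → P2[t]? = some (q t)) : Fam G N (duo p q) := by
  refine ⟨?_, ?_⟩
  · intro b
    cases b
    · exact hp
    · exact hq
  · intro b b' i j hi hj h
    cases b <;> cases b'
    · exact hp.inj i j hi hj h
    · exact aligned_eq hL hP hP2 hf (hpP i hi) (by rw [hqP j hj]; exact congrArg some h.symm)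
    · exact (aligned_eq hL hP hP2 hf (hpP j hj) (by rw [hqP i hi]; exact congrArg some h)).symm
    · exact hq.inj i j hi hj h

lemma exists_meet {N : ℕ} (hG : G.Connected) (hN : 0 < N) (hL : LongN G N) {P P2 R : List V}
    (hP : LP G N P) (hP2 : LP G N P2) (hf : P.filter (· ∈ P2) = P2.filter (· ∈ P))
    (hR : LP G N R) : ∃ v ∈ R, v ∈ P ∧ v ∈ P2 := by
  obtain ⟨p, hp, hpP⟩ := exists_fun hN hP
  obtain ⟨q, hq, hqP⟩ := exists_fun hN hP2
  obtain ⟨r, hr, hrP⟩ := exists_fun hN hR
  obtain ⟨s, t, hs, ht, h⟩ := main hG hN (duo_fam hL.lenLe hP hP2 hf hp hq hpP hqP) hL hr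
  refine ⟨r s, List.mem_of_getElem? (hrP s hs), ?_, ?_⟩
  · rw [← h false]; exact List.mem_of_getElem? (hpP t ht)
  · rw [← h true]; exact List.mem_of_getElem? (hqP t ht)

open Classical in
lemma no_gap {N : ℕ} {ι : Type} {P : ι → ℕ → V} (hP : Fam G N P) (hL : LongN G N)
    {p q r : ℕ → V} (hp : Full N P p) (hq : Full N P q) (hr : PathF G N r) {s t : ℕ}
    (ht : t < N) (hcut : ∀ l, l < N → p l = q l → ∀ u, s < u → u < t → r u ≠ p l) :
    ∀ u v a b, s < u → u < t → s < v → v < t → a < N → b < N → r u = p a → r v = q b →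
      SG p q a b → False := by
  by_contra hcon
  push Not at hcon
  have hB : ∃ d u v a b, s < u ∧ u < t ∧ s < v ∧ v < t ∧ a < N ∧ b < N ∧ r u = p a ∧ r v = q b ∧
      SG p q a b ∧ (u - v) + (v - u) = d := by
    obtain ⟨u, v, a, b, h1, h2, h3, h4, h5, h6, h7, h8, h9⟩ := hcon
    exact ⟨_, u, v, a, b, h1, h2, h3, h4, h5, h6, h7, h8, h9.1, rfl⟩
  obtain ⟨u, v, a, b, hu1, hu2, hv1, hv2, ha, hb, hua, hvb, hab, hd⟩ := Nat.find_spec hB
  have hmin : ∀ u' v' a' b', s < u' → u' < t → s < v' → v' < t →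
      (u' - v') + (v' - u') < (u - v) + (v - u) →
      a' < N → b' < N → r u' = p a' → r v' = q b' → SG p q a' b' → False := by
    intro u' v' a' b' h1 h2 h3 h4 h5 h6 h7 h8 h9 h10
    have := Nat.find_min' hB ⟨u', v', a', b', h1, h2, h3, h4, h6, h7, h8, h9, h10, rfl⟩
    omega
  rcases Nat.lt_trichotomy u v with h | h | h
  · refine key hP hL hp hq hr (fun l hl e w hw hw' => hcut l hl e w (by omega) (by omega))
      h (by omega) ha hb hua hvb hab ?_
    intro u' v' a' b' h1 h2 h3 h4 h5 h6 h7 h8 h9 h10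
    exact hmin u' v' a' b' (by omega) (by omega) (by omega) (by omega) (by omega) h6 h7 h8 h9 h10
  · subst h
    rw [hua] at hvb
    have := Full.lev hP hp hq ha hb hvb
    subst this
    exact hab.left hvb
  · refine key hP hL hq hp hr (fun l hl e w hw hw' => by
        rw [e]; exact hcut l hl e.symm w (by omega) (by omega))
      h (by omega) hb ha hvb hua hab.symm.swap ?_
    intro u' v' a' b' h1 h2 h3 h4 h5 h6 h7 h8 h9 h10
    exact hmin v' u' b' a' (by omega) (by omega) (by omega) (by omega) (by omega) h7 h6 h9 h8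
      h10.symm.swap

open Classical in
/-- a full sequence which avoids a set `D` that meets at most one side of each gap -/
lemma exists_avoid {N : ℕ} {ι : Type} {P : ι → ℕ → V} {p q : ℕ → V} (hp : Full N P p)
    (hq : Full N P q) (D : V → Prop) (hcut : ∀ l, l < N → p l = q l → ¬ D (p l))
    (hno : ∀ a b, a < N → b < N → D (p a) → D (q b) → SG p q a b → False) :
    ∃ T, Full N P T ∧ (∀ l, T l = p l ∨ T l = q l) ∧ ∀ l, l < N → ¬ D (T l) := by
  obtain ⟨c, hc⟩ : ∃ c : ℕ → Prop, ∀ l, c l ↔ ∃ l', l' < N ∧ SG p q l l' ∧ D (p l') :=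
    ⟨_, fun _ => Iff.rfl⟩
  have hcc : ∀ l l', SG p q l l' → (c l ↔ c l') := by
    intro l l' h
    rw [hc, hc]
    constructor
    · rintro ⟨k, hk, h1, h2⟩
      exact ⟨k, hk, h.symm.trans h1, h2⟩
    · rintro ⟨k, hk, h1, h2⟩
      exact ⟨k, hk, h.trans h1, h2⟩
  refine ⟨fun t => if c t then q t else p t,
    full_mix hp hq c (fun t ht e e' => hcc _ _ (SG.succ e e')), ?_, ?_⟩
  · intro l
    by_cases h : c l
    · right; simp only [h, if_true]
    · left; simp only [h, if_false]
  · intro l hl hD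
    by_cases h : c l
    · simp only [h, if_true] at hD
      obtain ⟨l', hl', h1, h2⟩ := (hc l).1 h
      exact hno l' l hl' hl h2 hD h1.symm
    · simp only [h, if_false] at hD
      by_cases e : p l = q l
      · exact hcut l hl e hD
      · exact h ((hc l).2 ⟨l, hl, SG.self e, hD⟩)

lemma exists_mixture {N : ℕ} (hN : 0 < N) (hL : LongN G N) {P P2 R : List V}
    (hP : LP G N P) (hP2 : LP G N P2) (hf : P.filter (· ∈ P2) = P2.filter (· ∈ P))
    (hR : LP G N R) {s t : ℕ} (ht : t < N)
    (hD : ∀ u v, s < u → u < t → R[u]? = some v → v ∈ P → v ∈ P2 → False) :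
    ∃ T : List V, LP G N T ∧ (∀ i : ℕ, T[i]? = P[i]? ∨ T[i]? = P2[i]?) ∧
      ∀ u v, s < u → u < t → R[u]? = some v → v ∉ T := by
  obtain ⟨p, hp, hpP⟩ := exists_fun hN hP
  obtain ⟨q, hq, hqP⟩ := exists_fun hN hP2
  obtain ⟨r, hr, hrP⟩ := exists_fun hN hR
  have hF := duo_fam hL.lenLe hP hP2 hf hp hq hpP hqP
  have hfp : Full N (duo p q) p := full_self (duo p q) false
  have hfq : Full N (duo p q) q := full_self (duo p q) true
  have hcut : ∀ l, l < N → p l = q l → ∀ u, s < u → u < t → r u ≠ p l := by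
    intro l hl e u h1 h2 h
    refine hD u (r u) h1 h2 (hrP u (by omega)) ?_ ?_
    · rw [h]; exact List.mem_of_getElem? (hpP l hl)
    · rw [h, e]; exact List.mem_of_getElem? (hqP l hl)
  have hno := no_gap hF hL hfp hfq hr ht hcut
  obtain ⟨f, hf1, hf2, hf3⟩ := exists_avoid hfp hfq (fun v => ∃ u, s < u ∧ u < t ∧ r u = v)
    (by
      rintro l hl e ⟨u, h1, h2, h3⟩
      exact hcut l hl e u h1 h2 h3)
    (by
      rintro a b ha hb ⟨u, h1, h2, h3⟩ ⟨v, h4, h5, h6⟩ hab
      exact hno u v a b h1 h2 h4 h5 ha hb h3 h6 hab)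
  have hfF := hf1.pathF hF
  refine ⟨seg f 0 N, ⟨seg_nodup hfF (by omega), seg_chain hfF (by omega), length_seg _ _ _⟩,
    ?_, ?_⟩
  · intro i
    by_cases hi : i < N
    · have h1 : (seg f 0 N)[i]? = some (f i) := by
        rw [List.getElem?_eq_getElem (by simpa using hi)]
        simp [seg]
      rw [h1, hpP i hi, hqP i hi]
      rcases hf2 i with h | h
      · left; rw [h]
      · right; rw [h]
    · left
      rw [List.getElem?_eq_none (by simpa using hi), List.getElem?_eq_none]
      rw [hP.len]; omega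
  · intro u v h1 h2 h3 h4
    obtain ⟨l, -, h5, h6⟩ := mem_seg.1 h4
    have h7 := hrP u (by omega)
    rw [h3] at h7
    have h8 := Option.some.inj h7
    exact hf3 l (by omega) ⟨u, h1, h2, by rw [← h8, h6]⟩

end Pool.Agent.Helper72.LPth
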